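import Pool.Agent.Run7.h35.NEG.Defs2

/-! Inner product estimates for the matrices of a tower. -/

set_option autoImplicit false

namespace Run7.h24.NEG

open Run7.h35.NEG Finset Module

/-- the sum of the squares of the column `ℓ₁` norms -/
def l1 {ι J : Type} [Fintype ι] [Fintype J] (M : ι → J → ℝ) : ℝ := ∑ j, (∑ ν, |M ν j|) ^ 2

theorem l1_nonneg {ι J : Type} [Fintype ι] [Fintype J] (M : ι → J → ℝ) : 0 ≤ l1 M := by
  unfold l1; positivity

/-- `G^s M` -/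
def gm (T : Tower) {J : Type} (s : ℕ) (M : Fin (2 ^ T.a) → J → ℝ) (b : Fin (T.n s)) (j : J) : ℝ :=
  ∑ ν, T.G s b ν * M ν j

theorem sqrt_mul_sqrt_le {x y z : ℝ} (hx : 0 ≤ x) (hz : 0 ≤ z) (h : x * y ≤ z ^ 2) :
    Real.sqrt x * Real.sqrt y ≤ z := by
  rw [← Real.sqrt_mul hx]
  exact (Real.sqrt_le_sqrt h).trans (by rw [Real.sqrt_sq hz])

/-- Cauchy-Schwarz -/
theorem cs {ι : Type} (s : Finset ι) (f g : ι → ℝ) :
    ∑ i ∈ s, |f i| * |g i| ≤ Real.sqrt (∑ i ∈ s, f i ^ 2) * Real.sqrt (∑ i ∈ s, g i ^ 2) := by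
  rw [← Real.sqrt_mul (sum_nonneg fun i _ => sq_nonneg _)]
  apply Real.le_sqrt_of_sq_le
  have := sum_mul_sq_le_sq_mul_sq s (fun i => |f i|) (fun i => |g i|)
  simpa [sq_abs] using this

theorem cs' {ι : Type} (s : Finset ι) (f g : ι → ℝ) :
    |∑ i ∈ s, f i * g i| ≤ Real.sqrt (∑ i ∈ s, f i ^ 2) * Real.sqrt (∑ i ∈ s, g i ^ 2) := by
  refine le_trans (abs_sum_le_sum_abs _ _) ?_
  simp only [abs_mul]
  exact cs s f g

/-- Cauchy-Schwarz for matrices -/
theorem cs_hs {ι J : Type} [Fintype ι] [Fintype J] (M M' : ι → J → ℝ) :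
    |∑ j, ∑ b, M b j * M' b j| ≤ Real.sqrt (hs M) * Real.sqrt (hs M') := by
  have h := cs' (univ : Finset (J × ι)) (fun p => M p.2 p.1) (fun p => M' p.2 p.1)
  rw [Fintype.sum_prod_type, Fintype.sum_prod_type, Fintype.sum_prod_type] at h
  have e : ∀ M : ι → J → ℝ, ∑ j, ∑ b, M b j ^ 2 = hs M := by
    intro M
    rw [sum_comm]
    rfl
  rw [e, e] at h
  exact h

variable {T : Tower}

/-- Gram matrix error of a level -/
structure GE (T : Tower) (s : ℕ) (ε η : ℝ) : Prop where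
  epos : 0 ≤ ε
  nonneg : 0 ≤ η
  err : ∀ ν μ, |∑ b, T.G s b ν * T.G s b μ - (if ν = μ then 1 else 0)| ≤
    (if ν = μ then ε else 0) + η

theorem ge_of_ok {H ε C₀ : ℝ} {g Γ : ℕ} (hε : 0 ≤ ε) (h : T.OK H ε C₀ g Γ) (s : ℕ)
    (hs : s ≤ T.top) : ∃ η, GE T s ε η ∧ η * (T.k s : ℝ) ^ 14 ≤ 8 := by
  have hk : 1 ≤ T.k s := h.one_le_a.trans (h.k_ge s)
  have hk' : (1 : ℝ) ≤ T.k s := by exact_mod_cast hk
  rcases eq_or_lt_of_le hs with hs | hs
  · subst hs
    refine ⟨0, ⟨hε, le_rfl, fun ν μ => ?_⟩, by simp⟩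
    rw [h.topG]
    split_ifs <;> simp [hε]
  · refine ⟨8 * Real.sqrt ((T.a : ℝ) / (T.n s)), ⟨hε, by positivity, fun ν μ => ?_⟩, ?_⟩
    · by_cases hν : ν = μ
      · subst hν
        rw [if_pos rfl, if_pos rfl]
        have h1 := (h.rm s hs).diag ν
        have h2 : ∑ b, T.G s b ν * T.G s b ν = ∑ b, T.G s b ν ^ 2 :=
          sum_congr rfl fun b _ => (sq _).symm
        rw [h2]
        have h3 : (0 : ℝ) ≤ 8 * Real.sqrt ((T.a : ℝ) / (T.n s)) := by positivity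
        linarith
      · rw [if_neg hν, if_neg hν, sub_zero, zero_add]
        exact (h.rm s hs).off ν μ hν
    · have h1 : (T.n s : ℝ) = (T.k s : ℝ) ^ 30 := by
        rw [h.n_eq s hs]; push_cast; rfl
      have h2 : (T.a : ℝ) ≤ T.k s := by exact_mod_cast h.k_ge s
      have h3 : Real.sqrt ((T.a : ℝ) / (T.n s)) ≤ 1 / (T.k s : ℝ) ^ 14 := by
        rw [Real.sqrt_le_iff]
        refine ⟨by positivity, ?_⟩
        rw [h1, div_pow, one_pow, ← pow_mul, div_le_div_iff₀ (by positivity) (by positivity)]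
        calc (T.a : ℝ) * (T.k s : ℝ) ^ (14 * 2) ≤ (T.k s : ℝ) * (T.k s : ℝ) ^ (14 * 2) :=
              mul_le_mul_of_nonneg_right h2 (by positivity)
          _ = (T.k s : ℝ) ^ 29 := by ring
          _ ≤ 1 * (T.k s : ℝ) ^ 30 := by
              rw [one_mul]
              exact pow_le_pow_right₀ hk' (by norm_num)
      calc 8 * Real.sqrt ((T.a : ℝ) / (T.n s)) * (T.k s : ℝ) ^ 14
          ≤ 8 * (1 / (T.k s : ℝ) ^ 14) * (T.k s : ℝ) ^ 14 := by gcongr
        _ = 8 := by field_simp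

theorem GE.inner {s : ℕ} {ε η : ℝ} (h : GE T s ε η) (v w : Fin (2 ^ T.a) → ℝ) :
    |∑ b, (∑ ν, T.G s b ν * v ν) * (∑ ν, T.G s b ν * w ν) - ∑ ν, v ν * w ν| ≤
      ε * (Real.sqrt (∑ ν, v ν ^ 2) * Real.sqrt (∑ ν, w ν ^ 2)) +
        η * ((∑ ν, |v ν|) * (∑ ν, |w ν|)) := by
  have h1 : ∑ b, (∑ ν, T.G s b ν * v ν) * (∑ ν, T.G s b ν * w ν) - ∑ ν, v ν * w ν =
      ∑ ν, ∑ μ, v ν * w μ * (∑ b, T.G s b ν * T.G s b μ - (if ν = μ then 1 else 0)) := by
    simp only [mul_sub, sum_sub_distrib, mul_ite, mul_one, mul_zero, sum_ite_eq, mem_univ,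
      if_true]
    congr 1
    simp only [sum_mul_sum]
    rw [sum_comm]
    refine sum_congr rfl fun ν _ => ?_
    rw [sum_comm]
    refine sum_congr rfl fun μ _ => ?_
    rw [mul_sum]
    exact sum_congr rfl fun b _ => by ring
  rw [h1]
  have h2 : |∑ ν, ∑ μ, v ν * w μ * (∑ b, T.G s b ν * T.G s b μ - (if ν = μ then 1 else 0))| ≤
      ∑ ν, ∑ μ, |v ν| * |w μ| * ((if ν = μ then ε else 0) + η) := by
    refine (abs_sum_le_sum_abs _ _).trans (sum_le_sum fun ν _ => ?_)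
    refine (abs_sum_le_sum_abs _ _).trans (sum_le_sum fun μ _ => ?_)
    rw [abs_mul, abs_mul]
    exact mul_le_mul_of_nonneg_left (h.err ν μ) (by positivity)
  refine h2.trans ?_
  simp only [mul_add, sum_add_distrib, mul_ite, mul_zero, sum_ite_eq, mem_univ, if_true]
  refine add_le_add ?_ ?_
  · rw [← sum_mul, mul_comm]
    exact mul_le_mul_of_nonneg_left (cs univ v w) h.epos
  · rw [sum_mul_sum, mul_sum]
    refine le_of_eq (sum_congr rfl fun ν _ => ?_)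
    rw [mul_sum]
    exact sum_congr rfl fun μ _ => by ring

section mat

variable {J : Type} [Fintype J]

theorem GE.mat {s : ℕ} {ε η : ℝ} (h : GE T s ε η) (M M' : Fin (2 ^ T.a) → J → ℝ) :
    |∑ j, ∑ b, gm T s M b j * gm T s M' b j - ∑ j, ∑ ν, M ν j * M' ν j| ≤
      ε * (Real.sqrt (hs M) * Real.sqrt (hs M')) +
        η * (Real.sqrt (l1 M) * Real.sqrt (l1 M')) := by
  rw [← sum_sub_distrib]
  refine (abs_sum_le_sum_abs _ _).trans ((sum_le_sum fun j _ =>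
    h.inner (fun ν => M ν j) (fun ν => M' ν j)).trans ?_)
  rw [sum_add_distrib, ← mul_sum, ← mul_sum]
  refine add_le_add (mul_le_mul_of_nonneg_left ?_ h.epos)
    (mul_le_mul_of_nonneg_left ?_ h.nonneg)
  · have h1 := cs (univ : Finset J) (fun j => Real.sqrt (∑ ν, M ν j ^ 2))
      (fun j => Real.sqrt (∑ ν, M' ν j ^ 2))
    have e : ∀ M : Fin (2 ^ T.a) → J → ℝ, ∑ j, Real.sqrt (∑ ν, M ν j ^ 2) ^ 2 = hs M := by
      intro M
      unfold hs
      rw [sum_comm]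
      exact sum_congr rfl fun j _ => Real.sq_sqrt (by positivity)
    rw [e, e] at h1
    simpa [abs_of_nonneg] using h1
  · have h1 := cs (univ : Finset J) (fun j => ∑ ν, |M ν j|) (fun j => ∑ ν, |M' ν j|)
    have e : ∀ (M : Fin (2 ^ T.a) → J → ℝ) (j : J), |(∑ ν, |M ν j|)| = ∑ ν, |M ν j| := by
      intro M j
      exact abs_of_nonneg (by positivity)
    simp only [e] at h1
    exact h1

theorem GE.hs_le {s : ℕ} {ε η : ℝ} (h : GE T s ε η) (M : Fin (2 ^ T.a) → J → ℝ) :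
    hs (gm T s M) ≤ (1 + ε) * hs M + η * l1 M := by
  have h1 := h.mat M M
  rw [Real.mul_self_sqrt (hs_nonneg M), Real.mul_self_sqrt (l1_nonneg M)] at h1
  have e1 : ∑ j, ∑ b, gm T s M b j * gm T s M b j = hs (gm T s M) := by
    unfold hs
    rw [sum_comm]
    exact sum_congr rfl fun _ _ => sum_congr rfl fun _ _ => (sq _).symm
  have e2 : ∑ j, ∑ ν, M ν j * M ν j = hs M := by
    unfold hs
    rw [sum_comm]
    exact sum_congr rfl fun _ _ => sum_congr rfl fun _ _ => (sq _).symm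
  rw [e1, e2] at h1
  have := (abs_le.1 h1).2
  linarith

end mat

end Run7.h24.NEG
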