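import Pool.Agent.Run7.h24.NEG.OneE

/-! The piece LOWB. -/

set_option autoImplicit false

namespace Run7.h24.NEG

open Run7.h35.NEG Finset Module

variable {T : Tower}

theorem sum_pair {n r : ℕ} (V : Submodule ℝ (Fin r → ℝ)) (L M : Fin n → Fin r → ℝ) :
    ∑ e, ∑ b, (∑ j, signA V e j * L b j) * (∑ j, signA V e j * M b j) =
      ∑ j, ∑ b, L b j * M b j - ∑ j, ∑ b, L b j * cproj V (M b) j := by
  rw [sum_comm]
  simp only [sum_signA]
  rw [sum_comm (s := (univ : Finset (Fin r))), sum_comm (s := (univ : Finset (Fin r))),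
    ← sum_sub_distrib]
  refine sum_congr rfl fun b _ => ?_
  rw [proj_symm, ← sum_sub_distrib]
  refine sum_congr rfl fun j _ => ?_
  unfold cproj
  ring

theorem gm_row {r : ℕ} (s : ℕ) (u : Fin (2 ^ T.a) → Fin r → ℝ) (b : Fin (T.n s)) :
    gm T s u b = ∑ ν, T.G s b ν • u ν := by
  funext j
  rw [Finset.sum_apply]
  rfl

theorem cproj_gm {r : ℕ} (V : Submodule ℝ (Fin r → ℝ)) (s : ℕ) (u : Fin (2 ^ T.a) → Fin r → ℝ)
    (b : Fin (T.n s)) (j : Fin r) : cproj V (gm T s u b) j = gm T s (cu V u) b j := by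
  unfold cproj
  rw [gm_row, map_sum]
  simp only [Finset.sum_apply, map_smul, Pi.smul_apply, smul_eq_mul]
  rw [← sum_sub_distrib]
  refine sum_congr rfl fun ν _ => ?_
  unfold cu cproj
  ring

/-- the mixed contents -/
noncomputable def Wm {r N : ℕ} (V : Submodule ℝ (Fin r → ℝ)) (u : Fin N → Fin r → ℝ) (ν : Fin N)
    (e : Fin r → Bool) : ℝ := ∑ j, signA V e j * u ν j

theorem gm_Wm {r : ℕ} (V : Submodule ℝ (Fin r → ℝ)) (s : ℕ) (u : Fin (2 ^ T.a) → Fin r → ℝ)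
    (b : Fin (T.n s)) (e : Fin r → Bool) :
    ∑ ν, T.G s b ν * Wm V u ν e = ∑ j, signA V e j * gm T s u b j := by
  unfold Wm gm
  simp only [mul_sum]
  rw [sum_comm]
  exact sum_congr rfl fun j _ => sum_congr rfl fun ν _ => by ring

theorem hs_Wm {r N : ℕ} (V : Submodule ℝ (Fin r → ℝ)) (u : Fin N → Fin r → ℝ) :
    ∑ e, ∑ ν, Wm V u ν e ^ 2 ≤ hs u := by
  rw [sum_comm]
  exact hs_mix_le (contr_signA V) u

theorem hs_gWm {r : ℕ} (V : Submodule ℝ (Fin r → ℝ)) (s : ℕ) (u : Fin (2 ^ T.a) → Fin r → ℝ) :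
    ∑ e, ∑ b, (∑ ν, T.G s b ν * Wm V u ν e) ^ 2 ≤ hs (gm T s u) := by
  rw [sum_comm]
  simp only [gm_Wm]
  exact hs_mix_le (contr_signA V) (gm T s u)

theorem l1_Wm {r N : ℕ} (V : Submodule ℝ (Fin r → ℝ)) (u : Fin N → Fin r → ℝ) :
    ∑ e, (∑ ν, |Wm V u ν e|) ^ 2 ≤ rho u ^ 2 := by
  refine (sum_l1_sq_le (fun ν => mixR (signA V) (u ν))).trans ?_
  exact pow_le_pow_left₀ (rho_nonneg _) (rho_mix_le (contr_signA V) u) 2

theorem k_mono {H ε C₀ : ℝ} {g Γ : ℕ} (h : T.OK H ε C₀ g Γ) (hg : 4 ≤ g) (i : ℕ) (hi : i ≤ T.top) :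
    ∀ s ≤ i, (T.k s : ℝ) ≤ T.k i := by
  induction i with
  | zero =>
    intro s hs
    have : s = 0 := by omega
    subst this
    exact le_rfl
  | succ i ih =>
    intro s hs
    rcases Nat.lt_or_ge i s with h1 | h1
    · have : s = i + 1 := by omega
      subst this
      exact le_rfl
    · exact (ih (by omega) s h1).trans (k_facts h hg i (by omega)).2.2.2.1

theorem exp_sum {ι : Type} [Fintype ι] (s f1 f2 f3 f4 : ι → ℝ) (a b p q t : ℝ) :
    ∑ e, s e * (f1 e + a * f2 e + b * (p * f3 e + q * f4 e + t * f2 e)) =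
      ∑ e, s e * f1 e + a * ∑ e, s e * f2 e +
        b * (p * ∑ e, s e * f3 e + q * ∑ e, s e * f4 e + t * ∑ e, s e * f2 e) := by
  simp only [mul_sum, ← sum_add_distrib]
  refine sum_congr rfl fun e _ => ?_
  ring

/-- the sum of the upper bounds -/
theorem sum_upper {ε η H : ℝ} {g Γ : ℕ} {H₂ C₀ : ℝ} (hOK : T.OK H₂ ε C₀ g Γ) (hg : 4 ≤ g)
    (i : ℕ) (hi : i < T.top) (hGE : GE T (i + 1) ε η) (hη : η * (T.k (i + 1) : ℝ) ^ 14 ≤ 8)
    (hK : (1 : ℝ) ≤ T.K) (r : ℕ) (hr : (r : ℝ) ≤ T.k (i + 1)) (hrk : (T.k i : ℝ) ^ 5 ≤ r)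
    (u : Fin (2 ^ T.a) → Fin r → ℝ) (V : Submodule ℝ (Fin r → ℝ)) (hH : 1 ≤ H)
    (hu : ∀ t, SG T.a (T.k i ^ 3) H (fun ν => u ν t))
    (hd : ∀ t t', t ≠ t' → ∀ ν, u ν t = 0 ∨ u ν t' = 0)
    (hV : ((r : ℝ) - finrank ℝ V) * (T.k i : ℝ) ^ 5 ≤ r)
    (hGu : hs (gm T (i + 1) u) ≤ 1.21 * hs u) (C : ℝ) (hC : ((i : ℝ) + 1) * T.K ^ i ≤ C)
    (hε1 : ε ≤ 1 / 10) (hε2 : T.K * C * ε ≤ 1 / 10) (hκ1 : (100 : ℝ) ≤ T.k (i + 1))
    (hκ2 : 8 / (T.k (i + 1) : ℝ) * (T.K * C) ≤ 1 / 10) (Q : ℝ) (hQ : Real.sqrt r ≤ Q * Real.sqrt (hs u))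
    (hkQ : T.K * C * H * (2 / T.k i * Q) ≤ 1 / 10)
    (y : (Fin r → Bool) → (s : ℕ) → Fin (T.n s) → ℝ)
    (c : (Fin r → Bool) → ℕ → Fin (2 ^ T.a) → ℝ) (m : (Fin r → Bool) → ℝ)
    (hm : ∀ e, T.cost (y e) (c e) ≤ m e) :
    ∑ e, ∑ b, T.ev (y e) (c e) (i + 1) b * (∑ ν, T.G (i + 1) b ν * Wm V u ν e) ≤
      2 * Real.sqrt (hs u) * Real.sqrt (∑ e, m e) := by
  have hk : ∀ s ≤ T.top, (0 : ℝ) < T.k s := fun s _ => by
    have : 1 ≤ T.k s := hOK.one_le_a.trans (hOK.k_ge s)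
    exact_mod_cast this
  have hmono := k_mono hOK hg i hi.le
  obtain ⟨hk1, _, _, hkκ, _⟩ := k_facts hOK hg i hi
  have hm0 : ∀ e, 0 ≤ m e := fun e => (cost_nonneg (y e) (c e)).trans (hm e)
  have hη0 := hGE.nonneg
  have hε0 := hGE.epos
  have hu0 := hs_nonneg u
  have h1 : ∀ e, ∑ b, T.ev (y e) (c e) (i + 1) b * (∑ ν, T.G (i + 1) b ν * Wm V u ν e) ≤
      Real.sqrt (m e) * (Real.sqrt (∑ b, (∑ ν, T.G (i + 1) b ν * Wm V u ν e) ^ 2 +
          (1 + ε) ^ 2 * ∑ ν, Wm V u ν e ^ 2) +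
        η * Real.sqrt (T.k (i + 1)) * (∑ ν, |Wm V u ν e|) +
        T.K * (((i : ℝ) + 1) * T.K ^ i) * (Real.sqrt (T.k i) * (rb V e * H) +
          ε * Real.sqrt (∑ ν, Wm V u ν e ^ 2) +
          η * Real.sqrt (T.k i) * (∑ ν, |Wm V u ν e|))) := fun e =>
    one_e i hi hGE hK hk hmono (y e) (c e) (m e) (hm e) (fun ν => Wm V u ν e) (rb V e * H)
      (fun ν => mix_le (by linarith) hu hd (signA V e) (rb V e) (rb_nonneg V e)
        (signA_le V e) ν)
  refine (sum_le_sum fun e _ => h1 e).trans ?_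
  -- abbreviations
  set κ : ℝ := (T.k (i + 1) : ℝ) with hκ
  set k : ℝ := (T.k i : ℝ) with hkd
  set SM := Real.sqrt (∑ e, m e) with hSM
  set su := Real.sqrt (hs u) with hsu
  have hSM0 : 0 ≤ SM := Real.sqrt_nonneg _
  have hsu0 : 0 ≤ su := Real.sqrt_nonneg _
  have hsm : Real.sqrt (∑ e, Real.sqrt (m e) ^ 2) = SM := by
    rw [hSM]
    congr 1
    exact sum_congr rfl fun e _ => Real.sq_sqrt (hm0 e)
  have hcs : ∀ (f : (Fin r → Bool) → ℝ) (R : ℝ), (∀ e, 0 ≤ f e) → 0 ≤ R →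
      ∑ e, f e ^ 2 ≤ R ^ 2 → ∑ e, Real.sqrt (m e) * f e ≤ SM * R := by
    intro f R hf hR hfR
    have h2 := cs univ (fun e => Real.sqrt (m e)) f
    have h3 : ∑ e, Real.sqrt (m e) * f e = ∑ e, |Real.sqrt (m e)| * |f e| := by
      refine sum_congr rfl fun e _ => ?_
      rw [abs_of_nonneg (Real.sqrt_nonneg _), abs_of_nonneg (hf e)]
    rw [h3]
    refine h2.trans ?_
    rw [hsm]
    refine mul_le_mul_of_nonneg_left ?_ hSM0
    exact (Real.sqrt_le_sqrt hfR).trans (by rw [Real.sqrt_sq hR])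
  have hsu2 : su ^ 2 = hs u := Real.sq_sqrt hu0
  -- T1
  have T1 : ∑ e, Real.sqrt (m e) * Real.sqrt (∑ b, (∑ ν, T.G (i + 1) b ν * Wm V u ν e) ^ 2 +
      (1 + ε) ^ 2 * ∑ ν, Wm V u ν e ^ 2) ≤ SM * (1.56 * su) := by
    apply hcs _ _ (fun e => Real.sqrt_nonneg _) (by positivity)
    have h2 : ∑ e, Real.sqrt (∑ b, (∑ ν, T.G (i + 1) b ν * Wm V u ν e) ^ 2 +
        (1 + ε) ^ 2 * ∑ ν, Wm V u ν e ^ 2) ^ 2 =
        ∑ e, ∑ b, (∑ ν, T.G (i + 1) b ν * Wm V u ν e) ^ 2 +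
          (1 + ε) ^ 2 * ∑ e, ∑ ν, Wm V u ν e ^ 2 := by
      rw [mul_sum, ← sum_add_distrib]
      exact sum_congr rfl fun e _ => Real.sq_sqrt (by positivity)
    rw [h2, mul_pow, hsu2]
    have h3 := hs_gWm V (i + 1) u
    have h4 := hs_Wm V u
    have h5 : (1 + ε) ^ 2 ≤ 1.21 := by nlinarith
    have h6 : (1 + ε) ^ 2 * ∑ e, ∑ ν, Wm V u ν e ^ 2 ≤ 1.21 * hs u :=
      mul_le_mul h5 h4 (by positivity) (by norm_num)
    linarith
  -- T2
  have T2 : ∑ e, Real.sqrt (m e) * (∑ ν, |Wm V u ν e|) ≤ SM * (κ ^ 2 * su) := by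
    apply hcs _ _ (fun e => by positivity) (by positivity)
    refine (l1_Wm V u).trans ((rho_le hu).trans ?_)
    rw [mul_pow, hsu2]
    refine mul_le_mul_of_nonneg_right ?_ hu0
    push_cast
    calc k ^ 3 * r ≤ κ ^ 3 * κ := mul_le_mul (pow_le_pow_left₀ (by linarith) hkκ 3) hr
          (Nat.cast_nonneg _) (by positivity)
      _ = (κ ^ 2) ^ 2 := by ring
  -- T3
  have T3 : ∑ e, Real.sqrt (m e) * (rb V e * H) ≤ SM * (H * Real.sqrt (4 * r / k ^ 5)) := by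
    apply hcs _ _ (fun e => mul_nonneg (rb_nonneg V e) (by linarith)) (by positivity)
    rw [mul_pow, Real.sq_sqrt (by positivity)]
    simp only [mul_pow]
    rw [← sum_mul, mul_comm]
    refine mul_le_mul_of_nonneg_left ?_ (sq_nonneg _)
    refine (sum_rb_sq V).trans ?_
    rw [le_div_iff₀ (by positivity)]
    linarith
  -- T4
  have T4 : ∑ e, Real.sqrt (m e) * Real.sqrt (∑ ν, Wm V u ν e ^ 2) ≤ SM * su := by
    apply hcs _ _ (fun e => Real.sqrt_nonneg _) hsu0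
    rw [hsu2]
    refine le_trans (le_of_eq ?_) (hs_Wm V u)
    exact sum_congr rfl fun e _ => Real.sq_sqrt (by positivity)
  -- expansion
  set C' := ((i : ℝ) + 1) * T.K ^ i with hC'
  have hC'0 : 0 ≤ C' := by positivity
  have hexp : ∑ e, Real.sqrt (m e) * (Real.sqrt (∑ b, (∑ ν, T.G (i + 1) b ν * Wm V u ν e) ^ 2 +
          (1 + ε) ^ 2 * ∑ ν, Wm V u ν e ^ 2) +
        η * Real.sqrt κ * (∑ ν, |Wm V u ν e|) +
        T.K * C' * (Real.sqrt k * (rb V e * H) +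
          ε * Real.sqrt (∑ ν, Wm V u ν e ^ 2) +
          η * Real.sqrt k * (∑ ν, |Wm V u ν e|))) =
      ∑ e, Real.sqrt (m e) * Real.sqrt (∑ b, (∑ ν, T.G (i + 1) b ν * Wm V u ν e) ^ 2 +
          (1 + ε) ^ 2 * ∑ ν, Wm V u ν e ^ 2) +
        η * Real.sqrt κ * ∑ e, Real.sqrt (m e) * (∑ ν, |Wm V u ν e|) +
        T.K * C' * (Real.sqrt k * ∑ e, Real.sqrt (m e) * (rb V e * H) +
          ε * ∑ e, Real.sqrt (m e) * Real.sqrt (∑ ν, Wm V u ν e ^ 2) +
          η * Real.sqrt k * ∑ e, Real.sqrt (m e) * (∑ ν, |Wm V u ν e|)) := by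
    exact exp_sum _ _ _ _ _ _ _ _ _ _
  rw [hexp]
  have hκ0 : 0 < κ := by linarith
  have hκ1' : 1 ≤ κ := by linarith
  have hsq : ∀ x : ℝ, 1 ≤ x → Real.sqrt x ≤ x := fun x hx =>
    Real.sqrt_le_iff.2 ⟨by linarith, by nlinarith⟩
  have hsκ : Real.sqrt κ ≤ κ := hsq κ hκ1'
  have hsk : Real.sqrt k ≤ κ := (hsq k hk1).trans hkκ
  have hη3 : η * κ ^ 3 ≤ 8 / κ := by
    rw [le_div_iff₀ hκ0, mul_assoc, ← pow_succ]
    exact (mul_le_mul_of_nonneg_left (pow_le_pow_right₀ hκ1' (by norm_num)) hη0).trans hη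
  have hSS : 0 ≤ SM * su := by positivity
  have B2 : ∀ x : ℝ, 0 ≤ x → x ≤ κ →
      η * x * ∑ e, Real.sqrt (m e) * (∑ ν, |Wm V u ν e|) ≤ 8 / κ * (SM * su) := by
    intro x hx0 hx
    calc η * x * ∑ e, Real.sqrt (m e) * (∑ ν, |Wm V u ν e|) ≤ η * κ * (SM * (κ ^ 2 * su)) :=
          mul_le_mul (mul_le_mul_of_nonneg_left hx hη0) T2 (by positivity) (by positivity)
      _ = η * κ ^ 3 * (SM * su) := by ring
      _ ≤ _ := mul_le_mul_of_nonneg_right hη3 hSS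
  have hC0 : 0 ≤ C := hC'0.trans hC
  have B3 : Real.sqrt k * ∑ e, Real.sqrt (m e) * (rb V e * H) ≤ H * (2 / k * Q) * (SM * su) := by
    have h2 : Real.sqrt k * Real.sqrt (4 * r / k ^ 5) ≤ 2 / k * Real.sqrt r := by
      apply sqrt_mul_sqrt_le (by linarith) (by positivity)
      rw [mul_pow, Real.sq_sqrt (Nat.cast_nonneg _)]
      have hk0 : 0 < k := by linarith
      have h3 : k * (4 * (r : ℝ) / k ^ 5) = 4 * r / k ^ 4 := by field_simp
      have h4 : (2 / k) ^ 2 * (r : ℝ) = 4 * r / k ^ 2 := by field_simp; ring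
      rw [h3, h4]
      exact div_le_div_of_nonneg_left (by positivity) (by positivity)
        (pow_le_pow_right₀ hk1 (by norm_num))
    calc Real.sqrt k * ∑ e, Real.sqrt (m e) * (rb V e * H)
        ≤ Real.sqrt k * (SM * (H * Real.sqrt (4 * r / k ^ 5))) :=
          mul_le_mul_of_nonneg_left T3 (Real.sqrt_nonneg _)
      _ = SM * H * (Real.sqrt k * Real.sqrt (4 * r / k ^ 5)) := by ring
      _ ≤ SM * H * (2 / k * (Q * su)) := by
          refine mul_le_mul_of_nonneg_left (h2.trans ?_) (by positivity)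
          exact mul_le_mul_of_nonneg_left hQ (by positivity)
      _ = _ := by ring
  have B4 : ε * ∑ e, Real.sqrt (m e) * Real.sqrt (∑ ν, Wm V u ν e ^ 2) ≤ ε * (SM * su) :=
    mul_le_mul_of_nonneg_left T4 hε0
  have B5 : T.K * C' * (Real.sqrt k * ∑ e, Real.sqrt (m e) * (rb V e * H) +
          ε * ∑ e, Real.sqrt (m e) * Real.sqrt (∑ ν, Wm V u ν e ^ 2) +
          η * Real.sqrt k * ∑ e, Real.sqrt (m e) * (∑ ν, |Wm V u ν e|)) ≤
      T.K * C * (H * (2 / k * Q) * (SM * su) + ε * (SM * su) + 8 / κ * (SM * su)) := by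
    refine mul_le_mul (mul_le_mul_of_nonneg_left hC (by linarith)) ?_ ?_ (by positivity)
    · exact add_le_add (add_le_add B3 B4) (B2 _ (Real.sqrt_nonneg _) hsk)
    · have : ∀ e, 0 ≤ rb V e := rb_nonneg V
      have h7 : 0 ≤ ∑ e, Real.sqrt (m e) * (rb V e * H) :=
        sum_nonneg fun e _ => mul_nonneg (Real.sqrt_nonneg _) (mul_nonneg (this e) (by linarith))
      positivity
  have h8 : T.K * C * (H * (2 / k * Q) * (SM * su) + ε * (SM * su) + 8 / κ * (SM * su)) ≤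
      0.3 * (SM * su) := by
    have e1 : T.K * C * (H * (2 / k * Q) * (SM * su) + ε * (SM * su) + 8 / κ * (SM * su)) =
        (T.K * C * H * (2 / k * Q) + T.K * C * ε + 8 / κ * (T.K * C)) * (SM * su) := by ring
    rw [e1]
    refine mul_le_mul_of_nonneg_right ?_ hSS
    linarith
  have h9 : 8 / κ ≤ 0.08 := by
    rw [div_le_iff₀ hκ0]
    linarith
  have h10 : 8 / κ * (SM * su) ≤ 0.08 * (SM * su) := mul_le_mul_of_nonneg_right h9 hSS
  have h11 := B2 _ (Real.sqrt_nonneg _) hsκ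
  linarith

/-- the bound for the matrix of a level -/
theorem hs_lev {ε η B : ℝ} {i r : ℕ} (hGE : GE T (i + 1) ε η) (hε : ε ≤ 1 / 10)
    (hη : ∀ p : ℕ, p ≤ 13 → η * (T.k (i + 1) : ℝ) ^ p ≤ 1 / 10)
    (hkκ : (T.k i : ℝ) ≤ T.k (i + 1)) (hK : (1 : ℝ) ≤ T.K) (hB : 0 ≤ B)
    (y : (s : ℕ) → Fin (T.n s) → Fin r → ℝ) (c : ℕ → Fin (2 ^ T.a) → Fin r → ℝ)
    (hyc : hs (y (i + 1)) + hs (c (i + 1)) ≤ B * r)
    (hc1 : l1 (c (i + 1)) ≤ T.k (i + 1) * (B * r))
    (hb : hs (T.accJ c i) ≤ B * r)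
    (hb1 : l1 (T.accJ c i) ≤ (T.k i : ℝ) ^ 4 * (B * r)) :
    hs (fun b j => T.ev (fun s b => y s b j) (fun s ν => c s ν j) (i + 1) b) ≤
      16 * (T.K : ℝ) ^ 2 * (B * r) := by
  have hBr : 0 ≤ B * r := mul_nonneg hB (Nat.cast_nonneg _)
  have hη0 := hGE.nonneg
  have hε0 := hGE.epos
  have h1 : hs (gm T (i + 1) (c (i + 1))) ≤ 1.2 * (B * r) := by
    have e1 := hGE.hs_le (c (i + 1))
    have e2 : hs (c (i + 1)) ≤ B * r := by
      have := hs_nonneg (y (i + 1))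
      linarith
    have e3 : η * l1 (c (i + 1)) ≤ 1 / 10 * (B * r) := by
      calc _ ≤ η * (T.k (i + 1) * (B * r)) := mul_le_mul_of_nonneg_left hc1 hη0
        _ = η * (T.k (i + 1) : ℝ) ^ 1 * (B * r) := by ring
        _ ≤ _ := mul_le_mul_of_nonneg_right (hη 1 (by norm_num)) hBr
    have e4 : (1 + ε) * hs (c (i + 1)) ≤ 1.1 * (B * r) :=
      mul_le_mul (by linarith) e2 (hs_nonneg _) (by norm_num)
    linarith
  have h2 : hs (gm T (i + 1) (T.accJ c i)) ≤ 1.2 * (B * r) := by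
    have e1 := hGE.hs_le (T.accJ c i)
    have e3 : η * l1 (T.accJ c i) ≤ 1 / 10 * (B * r) := by
      calc _ ≤ η * ((T.k i : ℝ) ^ 4 * (B * r)) := mul_le_mul_of_nonneg_left hb1 hη0
        _ ≤ η * ((T.k (i + 1) : ℝ) ^ 4 * (B * r)) := by gcongr
        _ = η * (T.k (i + 1) : ℝ) ^ 4 * (B * r) := by ring
        _ ≤ _ := mul_le_mul_of_nonneg_right (hη 4 (by norm_num)) hBr
    have e4 : (1 + ε) * hs (T.accJ c i) ≤ 1.1 * (B * r) :=
      mul_le_mul (by linarith) hb (hs_nonneg _) (by norm_num)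
    linarith
  have e5 : (fun (b : Fin (T.n (i + 1))) (j : Fin r) =>
      T.ev (fun s b => y s b j) (fun s ν => c s ν j) (i + 1) b) =
      fun b j => y (i + 1) b j + (gm T (i + 1) (c (i + 1)) b j +
        T.K * gm T (i + 1) (T.accJ c i) b j) := by
    funext b j
    rw [ev_eq, add_assoc]
  rw [e5]
  have h3 := hs_add_le (y (i + 1)) (fun b j => gm T (i + 1) (c (i + 1)) b j +
        T.K * gm T (i + 1) (T.accJ c i) b j)
  have h4 := hs_add_le (gm T (i + 1) (c (i + 1)))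
    (fun b j => T.K * gm T (i + 1) (T.accJ c i) b j)
  have h5 : hs (fun b j => (T.K : ℝ) * gm T (i + 1) (T.accJ c i) b j) =
      (T.K : ℝ) ^ 2 * hs (gm T (i + 1) (T.accJ c i)) := by
    simp only [hs, mul_sum, mul_pow]
  rw [h5] at h4
  have h6 : hs (y (i + 1)) ≤ B * r := by
    have := hs_nonneg (c (i + 1))
    linarith
  have h7 : (T.K : ℝ) ^ 2 * hs (gm T (i + 1) (T.accJ c i)) ≤ (T.K : ℝ) ^ 2 * (1.2 * (B * r)) :=
    mul_le_mul_of_nonneg_left h2 (sq_nonneg _)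
  have h8 : B * r ≤ (T.K : ℝ) ^ 2 * (B * r) := by
    have : 1 ≤ (T.K : ℝ) ^ 2 := one_le_pow₀ hK
    nlinarith
  linarith

set_option maxHeartbeats 8000000 in
theorem LOWB.main : S_LOWB := by
  intro K top H B δ hK hH hB hδ
  obtain ⟨ε₁, hε₁, Γ₁, hP⟩ := PAIR.main K top H B (δ / 2) hH hB (half_pos hδ)
  have hKr : (1 : ℝ) ≤ K := by exact_mod_cast hK
  set C : ℝ := ((top : ℝ) + 1) * (K : ℝ) ^ top with hC
  have hC1 : 1 ≤ C := by
    have h1 : (1 : ℝ) ≤ (K : ℝ) ^ top := one_le_pow₀ hKr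
    have h2 : (0 : ℝ) ≤ top := Nat.cast_nonneg _
    nlinarith
  have hBB : B ≤ B ^ 2 := by nlinarith
  refine ⟨min ε₁ (1 / (10 * (K * C))), by positivity,
    max Γ₁ ⌈100 + 1000 * (K ^ 2 * C * B * H) / δ + 80 * (K * C)⌉₊, ?_⟩
  intro H₂ ε C₀ g T hg hε hε₀ hε1 hK' htop hOK E _ _ X i hi r hnr hr4 u w y c A V hu hd hX hyc hAB
    hc1 hb hb1 _ hV
  subst hK'
  have hi' : i < T.top := by omega
  obtain ⟨hk1, hk120, hκΓ, hkκ, hkΓ⟩ := k_facts hOK hg i hi'
  obtain ⟨η, hGE, hη⟩ := ge_of_ok hε.le hOK (i + 1) (by omega)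
  have hη0 := hGE.nonneg
  have hOK1 : T.OK H₂ ε C₀ g Γ₁ := { hOK with base := (le_max_left _ _).trans hOK.base }
  have hpair := hP H₂ ε C₀ g T hg hε (hε₀.trans (min_le_left _ _)) hε1 rfl htop hOK1 i hi r hr4
    u y c A hu hyc hAB hc1 hb hb1
  have hkn : (T.k i : ℝ) ^ 90 ≤ r := by
    have : T.k i ^ 90 ≤ r := by
      rw [hOK.n_eq i hi', ← pow_mul] at hnr
      exact hnr
    exact_mod_cast this
  have hr1 : (1 : ℝ) ≤ r := (one_le_pow₀ hk1).trans hkn
  have hrκ : (r : ℝ) ≤ T.k (i + 1) := by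
    have h1 : (r : ℝ) ^ 4 ≤ T.k (i + 1) := by exact_mod_cast hr4
    exact (le_self_pow₀ hr1 (by norm_num)).trans h1
  have hrk : (T.k i : ℝ) ^ 5 ≤ r := (pow_le_pow_right₀ hk1 (by norm_num)).trans hkn
  have hΓk : 100 + 1000 * ((T.K : ℝ) ^ 2 * C * B * H) / δ + 80 * (T.K * C) ≤ T.k i := by
    refine (Nat.le_ceil _).trans (le_trans ?_ hkΓ)
    exact_mod_cast le_max_right _ _
  set κ : ℝ := (T.k (i + 1) : ℝ) with hκ
  set k : ℝ := (T.k i : ℝ) with hk
  set Kr : ℝ := (T.K : ℝ) with hKrd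
  have hP1 : 0 ≤ 1000 * (Kr ^ 2 * C * B * H) / δ := by positivity
  have hP2 : 0 ≤ 80 * (Kr * C) := by positivity
  have hk100 : 100 ≤ k := by linarith
  have hκ100 : 100 ≤ κ := by linarith
  have hkδ : 1000 * (Kr ^ 2 * C * B * H) ≤ k * δ := by
    have : 1000 * (Kr ^ 2 * C * B * H) / δ ≤ k := by linarith
    rwa [div_le_iff₀ hδ] at this
  have hε2 : Kr * C * ε ≤ 1 / 10 := by
    have := hε₀.trans (min_le_right _ _)
    rw [le_div_iff₀ (by positivity)] at this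
    linarith
  have hKC : 1 ≤ Kr * C := one_le_mul_of_one_le_of_one_le hKr hC1
  have hε10 : ε ≤ 1 / 10 := (le_mul_of_one_le_left hε.le hKC).trans hε2
  have hX0' : 0 ≤ Kr ^ 2 * C * B * H := by positivity
  have hηκ : ∀ p : ℕ, p ≤ 13 → η * κ ^ p ≤ 1 / 10 := by
    intro p hp
    have h1 : η * κ ^ (p + 1) ≤ 8 := le_trans (mul_le_mul_of_nonneg_left
      (pow_le_pow_right₀ (by linarith) (by omega)) hη0) hη
    rw [pow_succ, ← mul_assoc] at h1
    have h2 : 0 ≤ η * κ ^ p := by positivity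
    have h3 := mul_le_mul_of_nonneg_left hκ100 h2
    linarith
  have hκ2 : 8 / κ * (Kr * C) ≤ 1 / 10 := by
    rw [div_mul_eq_mul_div, div_le_iff₀ (by linarith)]
    linarith
  have hu0 := hs_nonneg u
  have hu2 : hs u ≤ H ^ 2 * r := hs_le u hu
  have hΛ : ∑ j, ∑ ν, T.accJ c i ν j * u ν j ≤ Real.sqrt (hs (T.accJ c i)) * Real.sqrt (hs u) :=
    (le_abs_self _).trans (cs_hs _ _)
  have hX0 : 0 ≤ 3 * Real.sqrt (hs u) * Real.sqrt (∑ e, ‖mixE (signA V) w e‖ ^ 2) := by positivity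
  have hA0 : 0 ≤ 2 * Real.sqrt (A * r) * Real.sqrt (hs u) := by positivity
  have hδK : 0 < δ / (Kr * B) := by positivity
  by_cases hcase : hs u ≤ (δ / (Kr * B)) ^ 2 * r
  · -- the trivial case
    have h1 : Real.sqrt (hs (T.accJ c i)) * Real.sqrt (hs u) ≤ δ / Kr * r := by
      apply sqrt_mul_sqrt_le (hs_nonneg _) (by positivity)
      calc hs (T.accJ c i) * hs u ≤ (B * r) * ((δ / (Kr * B)) ^ 2 * r) :=
            mul_le_mul hb hcase hu0 (by positivity)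
        _ = (δ / Kr * r) ^ 2 * (1 / B) := by field_simp
        _ ≤ (δ / Kr * r) ^ 2 * 1 := by
            refine mul_le_mul_of_nonneg_left ?_ (sq_nonneg _)
            rw [div_le_one (by linarith)]
            exact hB
        _ = _ := mul_one _
    have h2 : Kr * (∑ j, ∑ ν, T.accJ c i ν j * u ν j) ≤ Kr * (δ / Kr * r) :=
      mul_le_mul_of_nonneg_left (hΛ.trans h1) (by linarith)
    have h3 : Kr * (δ / Kr * r) = δ * r := by field_simp
    linarith
  · push Not at hcase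
    -- representations of the mixed tuple
    set θ : ℝ := (δ / (16 * H)) ^ 2 / 2 ^ r with hθ
    have hθ0 : 0 < θ := by positivity
    choose ye ce hrep hcost using fun e : Fin r → Bool => X.rep (mixE (signA V) w e) θ hθ0
    have hGu : hs (gm T (i + 1) u) ≤ 1.21 * hs u := by
      have h1 := hGE.hs_le u
      have h2 : l1 u ≤ κ ^ 3 * hs u := by
        have := l1_le u hu
        push_cast at this
        exact this.trans (mul_le_mul_of_nonneg_right (pow_le_pow_left₀ (by linarith) hkκ 3) hu0)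
      have h3 : η * l1 u ≤ 1 / 10 * hs u := by
        calc _ ≤ η * (κ ^ 3 * hs u) := mul_le_mul_of_nonneg_left h2 hη0
          _ = η * κ ^ 3 * hs u := by ring
          _ ≤ _ := mul_le_mul_of_nonneg_right (hηκ 3 (by norm_num)) hu0
      have h4 : (1 + ε) * hs u ≤ 1.1 * hs u := mul_le_mul_of_nonneg_right (by linarith) hu0
      linarith
    have hQ : Real.sqrt r ≤ (Kr * B / δ) * Real.sqrt (hs u) := by
      have h1 : Real.sqrt ((δ / (Kr * B)) ^ 2 * r) ≤ Real.sqrt (hs u) :=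
        Real.sqrt_le_sqrt hcase.le
      rw [Real.sqrt_mul (sq_nonneg _), Real.sqrt_sq hδK.le, div_mul_eq_mul_div,
        div_le_iff₀ (by positivity)] at h1
      rw [div_mul_eq_mul_div, le_div_iff₀ hδ]
      linarith
    have hkQ : Kr * C * H * (2 / k * (Kr * B / δ)) ≤ 1 / 10 := by
      have h1 : Kr * C * H * (2 / k * (Kr * B / δ)) = 2 * (Kr ^ 2 * C * B * H) / (k * δ) := by
        field_simp
      rw [h1, div_le_iff₀ (by positivity)]
      linarith
    have hCi : ((i : ℝ) + 1) * Kr ^ i ≤ C := by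
      rw [hC]
      refine mul_le_mul ?_ (pow_le_pow_right₀ hKr hi.le) (by positivity) (by positivity)
      have : (i : ℝ) ≤ top := by exact_mod_cast hi.le
      linarith
    have hup := sum_upper hOK hg i hi' hGE hη hKr r hrκ hrk u V hH hu hd hV hGu C hCi hε10 hε2
      hκ100 hκ2 (Kr * B / δ) hQ hkQ ye ce (fun e => ‖mixE (signA V) w e‖ ^ 2 + θ) hcost
    -- the left side
    have hlev : ∀ (e : Fin r → Bool) (b : Fin (T.n (i + 1))), T.ev (ye e) (ce e) (i + 1) b =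
        ∑ j, signA V e j * T.ev (fun s b => y s b j) (fun s ν => c s ν j) (i + 1) b := by
      intro e b
      rw [← hrep e (i + 1) (by omega) b]
      unfold mixE
      rw [map_sum, Finset.sum_apply]
      refine sum_congr rfl fun j _ => ?_
      rw [map_smul, Pi.smul_apply, smul_eq_mul, hX (i + 1) (by omega) b j]
    have hleft : ∑ e, ∑ b, T.ev (ye e) (ce e) (i + 1) b *
        (∑ ν, T.G (i + 1) b ν * Wm V u ν e) =
        ∑ j, ∑ b, T.ev (fun s b => y s b j) (fun s ν => c s ν j) (i + 1) b *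
          gm T (i + 1) u b j -
        ∑ j, ∑ b, T.ev (fun s b => y s b j) (fun s ν => c s ν j) (i + 1) b *
          gm T (i + 1) (cu V u) b j := by
      simp only [hlev, gm_Wm]
      have := sum_pair V (fun b j => T.ev (fun s b => y s b j) (fun s ν => c s ν j) (i + 1) b)
        (gm T (i + 1) u)
      simp only [cproj_gm] at this
      exact this
    rw [hleft] at hup
    -- the error term
    have hL := hs_lev hGE hε10 hηκ hkκ hKr (by linarith) y c
      (hyc.trans (mul_le_mul_of_nonneg_right hAB (by linarith))) hc1 hb hb1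
    have hcu : hs (gm T (i + 1) (cu V u)) ≤ 1.2 * (H ^ 2 * (r / k ^ 5)) := by
      have h1 := hGE.hs_le (cu V u)
      have h2 : hs (cu V u) ≤ H ^ 2 * (r / k ^ 5) := by
        refine (hs_cu_le V hu hd).trans (mul_le_mul_of_nonneg_left ?_ (sq_nonneg _))
        rw [le_div_iff₀ (by positivity)]
        exact hV
      have h3 : l1 (cu V u) ≤ κ ^ 4 * hs (cu V u) := by
        refine (sum_l1_sq_le _).trans ((rho_cu_le V hu).trans ?_)
        refine mul_le_mul_of_nonneg_right ?_ (hs_nonneg _)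
        push_cast
        calc k ^ 3 * r ≤ κ ^ 3 * κ := mul_le_mul (pow_le_pow_left₀ (by linarith) hkκ 3) hrκ
              (Nat.cast_nonneg _) (by positivity)
          _ = κ ^ 4 := by ring
      have h4 : η * l1 (cu V u) ≤ 1 / 10 * hs (cu V u) := by
        calc _ ≤ η * (κ ^ 4 * hs (cu V u)) := mul_le_mul_of_nonneg_left h3 hη0
          _ = η * κ ^ 4 * hs (cu V u) := by ring
          _ ≤ _ := mul_le_mul_of_nonneg_right (hηκ 4 (by norm_num)) (hs_nonneg _)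
      have h5 : (1 + ε) * hs (cu V u) ≤ 1.1 * hs (cu V u) :=
        mul_le_mul_of_nonneg_right (by linarith) (hs_nonneg _)
      linarith
    have herr : ∑ j, ∑ b, T.ev (fun s b => y s b j) (fun s ν => c s ν j) (i + 1) b *
        gm T (i + 1) (cu V u) b j ≤ δ / 8 * r := by
      refine (le_abs_self _).trans ((cs_hs (fun b j => T.ev (fun s b => y s b j)
        (fun s ν => c s ν j) (i + 1) b) (gm T (i + 1) (cu V u))).trans ?_)
      have h1 : Real.sqrt (hs (fun (b : Fin (T.n (i + 1))) (j : Fin r) =>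
          T.ev (fun s b => y s b j) (fun s ν => c s ν j) (i + 1) b)) *
          Real.sqrt (hs (gm T (i + 1) (cu V u))) ≤ 5 * Kr * B * H * r / k := by
        apply sqrt_mul_sqrt_le (hs_nonneg _) (by positivity)
        calc _ ≤ (16 * Kr ^ 2 * (B * r)) * (1.2 * (H ^ 2 * (r / k ^ 5))) :=
              mul_le_mul hL hcu (hs_nonneg _) (by positivity)
          _ = (19.2 * Kr ^ 2 * H ^ 2 * r ^ 2) * B / k ^ 5 := by ring
          _ ≤ (19.2 * Kr ^ 2 * H ^ 2 * r ^ 2) * B ^ 2 / k ^ 5 := by gcongr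
          _ ≤ (19.2 * Kr ^ 2 * H ^ 2 * r ^ 2) * B ^ 2 / k ^ 2 := by
              refine div_le_div_of_nonneg_left (by positivity) (by positivity)
                (pow_le_pow_right₀ hk1 (by norm_num))
          _ ≤ (25 * Kr ^ 2 * H ^ 2 * r ^ 2) * B ^ 2 / k ^ 2 := by gcongr; norm_num
          _ = _ := by ring
      refine h1.trans ?_
      rw [div_le_iff₀ (by linarith)]
      have h2 : Kr * B * H ≤ Kr ^ 2 * C * B * H := by
        have h3 : 0 ≤ Kr * B * H := by positivity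
        have h4 : Kr ^ 2 * C * B * H = (Kr * C) * (Kr * B * H) := by ring
        rw [h4]
        exact le_mul_of_one_le_left h3 hKC
      have h5 : 5 * Kr * B * H ≤ k * δ / 8 := by linarith
      have h6 : 5 * Kr * B * H * r ≤ k * δ / 8 * r := mul_le_mul_of_nonneg_right h5 (by linarith)
      linarith
    -- the cost error
    have hsq : Real.sqrt (∑ e : Fin r → Bool, (‖mixE (signA V) w e‖ ^ 2 + θ)) ≤
        Real.sqrt (∑ e, ‖mixE (signA V) w e‖ ^ 2) + δ / (16 * H) := by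
      have h1 : ∑ e : Fin r → Bool, (‖mixE (signA V) w e‖ ^ 2 + θ) =
          ∑ e, ‖mixE (signA V) w e‖ ^ 2 + (δ / (16 * H)) ^ 2 := by
        rw [sum_add_distrib, sum_const, card_univ, Fintype.card_fun, Fintype.card_bool,
          Fintype.card_fin, nsmul_eq_mul, hθ]
        push_cast
        rw [mul_div_cancel₀ _ (by positivity)]
      rw [h1]
      have h2 : 0 ≤ ∑ e : Fin r → Bool, ‖mixE (signA V) w e‖ ^ 2 := by positivity
      have h3 : 0 ≤ δ / (16 * H) := by positivity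
      rw [Real.sqrt_le_iff]
      refine ⟨by positivity, ?_⟩
      have h4 := Real.sq_sqrt h2
      have h5 := Real.sqrt_nonneg (∑ e : Fin r → Bool, ‖mixE (signA V) w e‖ ^ 2)
      have h6 := mul_nonneg h5 h3
      rw [add_sq, h4]
      linarith
    have hsu : Real.sqrt (hs u) ≤ H * r := by
      rw [Real.sqrt_le_iff]
      refine ⟨by positivity, hu2.trans ?_⟩
      rw [mul_pow]
      exact mul_le_mul_of_nonneg_left (le_self_pow₀ hr1 (by norm_num)) (sq_nonneg _)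
    have hfin : 2 * Real.sqrt (hs u) *
        Real.sqrt (∑ e : Fin r → Bool, (‖mixE (signA V) w e‖ ^ 2 + θ)) ≤
        2 * Real.sqrt (hs u) * Real.sqrt (∑ e, ‖mixE (signA V) w e‖ ^ 2) + δ / 8 * r := by
      have h1 : 2 * Real.sqrt (hs u) * (δ / (16 * H)) ≤ δ / 8 * r := by
        calc 2 * Real.sqrt (hs u) * (δ / (16 * H)) ≤ 2 * (H * r) * (δ / (16 * H)) := by gcongr
          _ = δ / 8 * r := by field_simp; ring
      calc _ ≤ 2 * Real.sqrt (hs u) * (Real.sqrt (∑ e, ‖mixE (signA V) w e‖ ^ 2) +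
            δ / (16 * H)) := mul_le_mul_of_nonneg_left hsq (by positivity)
        _ = 2 * Real.sqrt (hs u) * Real.sqrt (∑ e, ‖mixE (signA V) w e‖ ^ 2) +
            2 * Real.sqrt (hs u) * (δ / (16 * H)) := by ring
        _ ≤ _ := by linarith
    have hGM : ∑ j, ∑ b, T.ev (fun s b => y s b j) (fun s ν => c s ν j) (i + 1) b *
          T.GM (i + 1) u b j = ∑ j, ∑ b, T.ev (fun s b => y s b j) (fun s ν => c s ν j) (i + 1) b *
          gm T (i + 1) u b j := rfl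
    rw [hGM] at hpair
    have hp := (abs_le.1 hpair).1
    have hδr : 0 ≤ δ * r := by positivity
    have h3 : 2 * Real.sqrt (hs u) * Real.sqrt (∑ e, ‖mixE (signA V) w e‖ ^ 2) ≤
        3 * Real.sqrt (hs u) * Real.sqrt (∑ e, ‖mixE (signA V) w e‖ ^ 2) := by
      have : 0 ≤ Real.sqrt (hs u) * Real.sqrt (∑ e, ‖mixE (signA V) w e‖ ^ 2) := by positivity
      linarith
    linarith

end Run7.h24.NEG
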