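import Pool.Agent.Run7.h24.NEG.Gram

/-! Random signs and orthogonal projections. -/

set_option autoImplicit false

namespace Run7.h24.NEG

open Run7.h35.NEG Finset Module

theorem sg_sq (b : Bool) : sg b * sg b = 1 := by cases b <;> simp [sg]

theorem sg_not (b : Bool) : sg (!b) = - sg b := by cases b <;> simp [sg]

theorem sum_sg {r : ℕ} (j j' : Fin r) :
    ∑ e : Fin r → Bool, sg (e j) * sg (e j') = if j = j' then (2 : ℝ) ^ r else 0 := by
  classical
  by_cases h : j = j'
  · subst h
    simp [sg_sq]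
  · rw [if_neg h]
    let φ : (Fin r → Bool) ≃ (Fin r → Bool) :=
      { toFun := fun e => Function.update e j (!(e j))
        invFun := fun e => Function.update e j (!(e j))
        left_inv := fun e => by
          funext t
          by_cases ht : t = j
          · subst ht; simp
          · simp [Function.update_of_ne ht]
        right_inv := fun e => by
          funext t
          by_cases ht : t = j
          · subst ht; simp
          · simp [Function.update_of_ne ht] }
    have h1 := Equiv.sum_comp φ (fun e : Fin r → Bool => sg (e j) * sg (e j'))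
    have h2 : ∀ e, sg (φ e j) * sg (φ e j') = -(sg (e j) * sg (e j')) := by
      intro e
      have e1 : φ e j = !(e j) := by simp [φ]
      have e2 : φ e j' = e j' := by
        change Function.update e j (!(e j)) j' = e j'
        rw [Function.update_of_ne (Ne.symm h)]
      rw [e1, e2, sg_not]
      ring
    simp only [h2, sum_neg_distrib] at h1
    linarith

theorem sum_sg_mul {r : ℕ} (a b : Fin r → ℝ) :
    ∑ e : Fin r → Bool, (∑ j, sg (e j) * a j) * (∑ j, sg (e j) * b j) =
      (2 : ℝ) ^ r * ∑ j, a j * b j := by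
  have h1 : ∀ e : Fin r → Bool, (∑ j, sg (e j) * a j) * (∑ j, sg (e j) * b j) =
      ∑ j, ∑ j', a j * b j' * (sg (e j) * sg (e j')) := by
    intro e
    rw [sum_mul_sum]
    exact sum_congr rfl fun j _ => sum_congr rfl fun j' _ => by ring
  simp only [h1]
  rw [sum_comm]
  simp only [sum_comm (s := (univ : Finset (Fin r → Bool)))]
  simp only [← mul_sum, sum_sg]
  rw [mul_sum]
  refine sum_congr rfl fun j _ => ?_
  simp only [mul_ite, mul_zero, sum_ite_eq, mem_univ, if_true]
  ring

section sign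

variable {r : ℕ} (V : Submodule ℝ (Fin r → ℝ))

theorem signA_mul (e : Fin r → Bool) (v : Fin r → ℝ) :
    ∑ j, signA V e j * v j = (∑ j, sg (e j) * proj V v j) / Real.sqrt (2 ^ r) := by
  unfold signA
  rw [← proj_symm, sum_div]
  exact sum_congr rfl fun j _ => by ring

theorem sum_signA (v w : Fin r → ℝ) :
    ∑ e, (∑ j, signA V e j * v j) * (∑ j, signA V e j * w j) = ∑ j, proj V v j * w j := by
  simp only [signA_mul]
  have h1 : ∀ e : Fin r → Bool, (∑ j, sg (e j) * proj V v j) / Real.sqrt (2 ^ r) *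
      ((∑ j, sg (e j) * proj V w j) / Real.sqrt (2 ^ r)) =
      (∑ j, sg (e j) * proj V v j) * (∑ j, sg (e j) * proj V w j) * (2 ^ r)⁻¹ := by
    intro e
    rw [div_mul_div_comm, Real.mul_self_sqrt (by positivity)]
    rfl
  simp only [h1]
  rw [← sum_mul, sum_sg_mul, mul_comm, ← mul_assoc, inv_mul_cancel₀ (by positivity), one_mul,
    ← proj_symm, proj_idem]

theorem contr_signA : Contr (signA V) := by
  intro w
  have h := sum_signA V w w
  have h1 : ∑ e, (∑ j, signA V e j * w j) ^ 2 = ∑ j, proj V w j * w j := by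
    rw [← h]
    exact sum_congr rfl fun e _ => sq _
  rw [h1]
  have h2 : ∑ j, proj V w j * w j = ∑ j, proj V w j ^ 2 := by
    rw [← proj_idem V w, proj_symm, proj_idem]
    exact sum_congr rfl fun j _ => (sq _).symm
  rw [h2]
  exact proj_norm_le V w

theorem sum_proj_single : ∑ j, proj V (Pi.single j 1) j = finrank ℝ V := by
  have h1 : LinearMap.IsProj V (proj V) := ⟨fun x => proj_mem V x, fun x hx => proj_of_mem hx⟩
  have h2 := h1.trace
  rw [← h2, LinearMap.trace_eq_matrix_trace ℝ (Pi.basisFun ℝ (Fin r))]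
  unfold Matrix.trace
  refine sum_congr rfl fun j _ => ?_
  rw [Matrix.diag_apply, LinearMap.toMatrix_apply]
  simp

/-- the complementary projection -/
noncomputable def cproj (v : Fin r → ℝ) : Fin r → ℝ := fun j => v j - proj V v j

theorem cproj_sq (v : Fin r → ℝ) :
    ∑ j, cproj V v j ^ 2 = ∑ j, v j ^ 2 - ∑ j, proj V v j * v j := by
  have h2 : ∑ j, proj V v j * v j = ∑ j, proj V v j ^ 2 := by
    rw [← proj_idem V v, proj_symm, proj_idem]
    exact sum_congr rfl fun j _ => (sq _).symm
  have h3 : ∑ j, cproj V v j ^ 2 =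
      ∑ j, v j ^ 2 - 2 * ∑ j, proj V v j * v j + ∑ j, proj V v j ^ 2 := by
    rw [mul_sum, ← sum_sub_distrib, ← sum_add_distrib]
    refine sum_congr rfl fun j _ => ?_
    unfold cproj
    ring
  rw [h3, ← h2]
  ring

theorem sum_cproj_single : ∑ t, ∑ j, cproj V (Pi.single t 1) j ^ 2 = r - finrank ℝ V := by
  simp only [cproj_sq, sum_sub_distrib]
  congr 1
  · have : ∀ t : Fin r, ∑ j, (Pi.single t (1 : ℝ) : Fin r → ℝ) j ^ 2 = 1 := by
      intro t
      rw [sum_eq_single t]
      · simp
      · intro j _ hj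
        rw [Pi.single_eq_of_ne hj]
        norm_num
      · intro h
        exact absurd (mem_univ _) h
    simp [this]
  · rw [← sum_proj_single V]
    refine sum_congr rfl fun t _ => ?_
    rw [sum_eq_single t]
    · rw [Pi.single_eq_same, mul_one]
    · intro j _ hj
      rw [Pi.single_eq_of_ne hj, mul_zero]
    · intro h
      exact absurd (mem_univ _) h

theorem proj_eq_sum (v : Fin r → ℝ) (j : Fin r) :
    proj V v j = ∑ t, v t * proj V (Pi.single t 1) j := by
  conv_lhs => rw [← Finset.univ_sum_single v]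
  rw [map_sum, Finset.sum_apply]
  refine sum_congr rfl fun t _ => ?_
  have : (Pi.single t (v t) : Fin r → ℝ) = v t • Pi.single t 1 := by
    rw [← Pi.single_smul]
    simp
  rw [this, map_smul, Pi.smul_apply, smul_eq_mul]

theorem sum_cproj_sg : ∑ e : Fin r → Bool, ∑ j, cproj V (fun t => sg (e t)) j ^ 2 =
    2 ^ r * (r - finrank ℝ V) := by
  simp only [cproj_sq, sum_sub_distrib]
  rw [mul_sub]
  congr 1
  · have : ∀ e : Fin r → Bool, ∑ j, sg (e j) ^ 2 = r := by
      intro e
      simp [sq, sg_sq]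
    simp [this]
  · rw [sum_comm, ← sum_proj_single V, mul_sum]
    refine sum_congr rfl fun j _ => ?_
    have h1 : ∀ e : Fin r → Bool, proj V (fun t => sg (e t)) j * sg (e j) =
        ∑ t, proj V (Pi.single t 1) j * (sg (e t) * sg (e j)) := by
      intro e
      rw [proj_eq_sum, sum_mul]
      exact sum_congr rfl fun t _ => by ring
    simp only [h1]
    rw [sum_comm]
    simp only [← mul_sum, sum_sg]
    simp [mul_comm]

/-- a bound for the entries of a row of `signA V` -/
noncomputable def rb (e : Fin r → Bool) : ℝ :=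
  (1 + Real.sqrt (∑ j, cproj V (fun t => sg (e t)) j ^ 2)) / Real.sqrt (2 ^ r)

theorem rb_nonneg (e : Fin r → Bool) : 0 ≤ rb V e := by unfold rb; positivity

theorem signA_le (e : Fin r → Bool) (j : Fin r) : |signA V e j| ≤ rb V e := by
  unfold signA rb
  rw [abs_div, abs_of_nonneg (Real.sqrt_nonneg (2 ^ r))]
  refine div_le_div_of_nonneg_right ?_ (Real.sqrt_nonneg _)
  have h1 : proj V (fun t => sg (e t)) j = sg (e j) - cproj V (fun t => sg (e t)) j := by
    unfold cproj; ring
  rw [h1]
  have h2 : |sg (e j)| ≤ 1 := by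
    cases e j <;> simp [sg]
  have h3 : |cproj V (fun t => sg (e t)) j| ≤
      Real.sqrt (∑ j, cproj V (fun t => sg (e t)) j ^ 2) := by
    rw [← Real.sqrt_sq_eq_abs]
    exact Real.sqrt_le_sqrt (single_le_sum
      (f := fun j => cproj V (fun t => sg (e t)) j ^ 2) (fun _ _ => sq_nonneg _) (mem_univ j))
  exact (abs_sub _ _).trans (add_le_add h2 h3)

theorem sum_rb_sq : ∑ e, rb V e ^ 2 ≤ 2 + 2 * (r - finrank ℝ V) := by
  have h1 : ∀ e, rb V e ^ 2 ≤
      (2 + 2 * ∑ j, cproj V (fun t => sg (e t)) j ^ 2) / 2 ^ r := by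
    intro e
    unfold rb
    rw [div_pow, Real.sq_sqrt (by positivity : (0:ℝ) ≤ 2 ^ r)]
    refine div_le_div_of_nonneg_right ?_ (by positivity)
    set q := Real.sqrt (∑ j, cproj V (fun t => sg (e t)) j ^ 2) with hq
    have h2 : q ^ 2 = ∑ j, cproj V (fun t => sg (e t)) j ^ 2 :=
      Real.sq_sqrt (by positivity)
    rw [← h2]
    nlinarith [sq_nonneg (1 - q)]
  refine (sum_le_sum fun e _ => h1 e).trans ?_
  rw [← sum_div, sum_add_distrib, ← mul_sum, sum_cproj_sg, div_le_iff₀ (by positivity)]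
  simp only [sum_const, card_univ, Fintype.card_fun, Fintype.card_bool, Fintype.card_fin,
    nsmul_eq_mul, Nat.cast_pow, Nat.cast_ofNat]
  apply le_of_eq
  ring

end sign

/-! ### disjoint supports -/

section disj

variable {N r a q : ℕ} {H : ℝ} {u : Fin N → Fin r → ℝ}

theorem sum_row (hd : ∀ t t', t ≠ t' → ∀ ν, u ν t = 0 ∨ u ν t' = 0) (f : ℝ → Fin r → ℝ)
    (hf : ∀ t, f 0 t = 0) (ν : Fin N) :
    (∃ t, ∑ t', f (u ν t') t' = f (u ν t) t ∧ ∀ t', t' ≠ t → u ν t' = 0) ∨
      (∀ t, u ν t = 0) := by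
  by_cases h : ∀ t, u ν t = 0
  · exact Or.inr h
  · push Not at h
    obtain ⟨t, ht⟩ := h
    have h1 : ∀ t', t' ≠ t → u ν t' = 0 := by
      intro t' ht'
      rcases hd t' t ht' ν with h2 | h2
      · exact h2
      · exact absurd h2 ht
    refine Or.inl ⟨t, ?_, h1⟩
    refine sum_eq_single t ?_ ?_
    · intro t' _ ht'
      rw [h1 t' ht', hf]
    · intro h
      exact absurd (mem_univ _) h

theorem entry_le (hH : 0 ≤ H) (hu : ∀ t, SG a q H (fun ν => u ν t)) (ν : Fin N) (t : Fin r) :
    |u ν t| ≤ H := by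
  have h1 : u ν t ^ 2 ≤ H ^ 2 := le_trans
    (single_le_sum (f := fun ν => u ν t ^ 2) (fun _ _ => sq_nonneg _) (mem_univ ν)) (hu t).2.2
  exact abs_le_of_sq_le_sq h1 hH

theorem mix_le (hH : 0 ≤ H) (hu : ∀ t, SG a q H (fun ν => u ν t))
    (hd : ∀ t t', t ≠ t' → ∀ ν, u ν t = 0 ∨ u ν t' = 0) (A : Fin r → ℝ) (B : ℝ) (hB : 0 ≤ B)
    (hA : ∀ t, |A t| ≤ B) (ν : Fin N) : |∑ t, A t * u ν t| ≤ B * H := by
  rcases sum_row hd (fun x t => A t * x) (fun t => by simp) ν with ⟨t, ht, _⟩ | h
  · rw [ht, abs_mul]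
    exact mul_le_mul (hA t) (entry_le hH hu ν t) (abs_nonneg _) hB
  · simp only [h, mul_zero, sum_const_zero, abs_zero]
    positivity

theorem card_rows (hu : ∀ t, SG a q H (fun ν => u ν t)) :
    ((univ.filter fun ν => ∃ t, u ν t ≠ 0).card : ℝ) ≤ q * r := by
  classical
  have h1 : (univ.filter fun ν => ∃ t, u ν t ≠ 0) ⊆
      univ.biUnion fun t => univ.filter fun ν => u ν t ≠ 0 := by
    intro ν hν
    simp only [mem_filter, mem_univ, true_and] at hν
    simp only [mem_biUnion, mem_filter, mem_univ, true_and]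
    exact hν
  have h2 := (card_le_card h1).trans (card_biUnion_le)
  have h3 : ∑ t : Fin r, (univ.filter fun ν => u ν t ≠ 0).card ≤ ∑ t : Fin r, q :=
    sum_le_sum fun t _ => (hu t).2.1
  have h4 := h2.trans h3
  rw [sum_const, card_univ, Fintype.card_fin, smul_eq_mul] at h4
  calc ((univ.filter fun ν => ∃ t, u ν t ≠ 0).card : ℝ) ≤ ((r * q : ℕ) : ℝ) := by exact_mod_cast h4
    _ = q * r := by push_cast; ring

theorem rho_le (hu : ∀ t, SG a q H (fun ν => u ν t)) : rho u ^ 2 ≤ q * r * hs u := by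
  classical
  refine (rho_sq_le u (univ.filter fun ν => ∃ t, u ν t ≠ 0) ?_).trans
    (mul_le_mul_of_nonneg_right (card_rows hu) (hs_nonneg u))
  intro ν hν t
  simp only [mem_filter, mem_univ, true_and, not_exists, not_not] at hν
  exact hν t

/-- the part of the rows orthogonal to `V` -/
noncomputable def cu (V : Submodule ℝ (Fin r → ℝ)) (u : Fin N → Fin r → ℝ) (ν : Fin N) :
    Fin r → ℝ := cproj V (u ν)

theorem rho_cu_le (V : Submodule ℝ (Fin r → ℝ)) (hu : ∀ t, SG a q H (fun ν => u ν t)) :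
    rho (cu V u) ^ 2 ≤ q * r * hs (cu V u) := by
  classical
  refine (rho_sq_le (cu V u) (univ.filter fun ν => ∃ t, u ν t ≠ 0) ?_).trans
    (mul_le_mul_of_nonneg_right (card_rows hu) (hs_nonneg _))
  intro ν hν t
  simp only [mem_filter, mem_univ, true_and, not_exists, not_not] at hν
  have : u ν = 0 := funext hν
  unfold cu cproj
  rw [this, map_zero]
  simp

theorem hs_cu_le (V : Submodule ℝ (Fin r → ℝ)) (hu : ∀ t, SG a q H (fun ν => u ν t))
    (hd : ∀ t t', t ≠ t' → ∀ ν, u ν t = 0 ∨ u ν t' = 0) :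
    hs (cu V u) ≤ H ^ 2 * (r - finrank ℝ V) := by
  have h1 : ∀ ν, ∑ j, cu V u ν j ^ 2 = ∑ t, u ν t ^ 2 * ∑ j, cproj V (Pi.single t 1) j ^ 2 := by
    intro ν
    rcases sum_row hd (fun x t => x ^ 2 * ∑ j, cproj V (Pi.single t 1) j ^ 2)
      (fun t => by simp) ν with ⟨t, ht, h0⟩ | h
    · rw [ht]
      have h2 : u ν = u ν t • Pi.single t (1 : ℝ) := by
        funext t'
        by_cases h3 : t' = t
        · subst h3
          simp
        · rw [h0 t' h3]
          simp [Pi.single_eq_of_ne h3]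
      rw [mul_sum]
      refine sum_congr rfl fun j _ => ?_
      rw [← mul_pow]
      congr 1
      unfold cu cproj
      conv_lhs => rw [h2]
      rw [map_smul]
      simp only [Pi.smul_apply, smul_eq_mul]
      ring
    · have h2 : u ν = 0 := funext h
      unfold cu cproj
      rw [h2, map_zero]
      simp
  unfold hs
  simp only [h1]
  rw [sum_comm]
  simp only [← sum_mul]
  rw [← sum_cproj_single V, mul_sum]
  refine sum_le_sum fun t _ => mul_le_mul_of_nonneg_right (hu t).2.2 (by positivity)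

end disj

end Run7.h24.NEG
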