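import Pool.Agent.Run7.h24.NEG.PAIR
import Pool.Agent.Run7.h24.NEG.Sign

/-! Upper bound for one pairing. -/

set_option autoImplicit false

namespace Run7.h24.NEG

open Run7.h35.NEG Finset Module

variable {T : Tower}

section cost

variable (y : (s : ℕ) → Fin (T.n s) → ℝ) (c : ℕ → Fin (2 ^ T.a) → ℝ)

theorem term_le_cost (s : ℕ) (hs : s ≤ T.top) :
    ∑ b, y s b ^ 2 + ∑ ν, c s ν ^ 2 + (∑ ν, |c s ν|) ^ 2 / (T.k s : ℝ) ≤ T.cost y c := by
  unfold Tower.cost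
  exact single_le_sum (f := fun s => ∑ b, y s b ^ 2 + ∑ ν, c s ν ^ 2 +
    (∑ ν, |c s ν|) ^ 2 / (T.k s : ℝ)) (fun _ _ => by positivity) (mem_range.2 (by omega))

theorem cost_nonneg : 0 ≤ T.cost y c := by
  unfold Tower.cost
  positivity

theorem l1_le_cost (hk : ∀ s ≤ T.top, (0 : ℝ) < T.k s) (s : ℕ) (hs : s ≤ T.top) :
    (∑ ν, |c s ν|) ^ 2 ≤ T.k s * T.cost y c := by
  have h := term_le_cost y c s hs
  have h1 : (∑ ν, |c s ν|) ^ 2 / (T.k s : ℝ) ≤ T.cost y c := by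
    have h2 : 0 ≤ ∑ b, y s b ^ 2 := by positivity
    have h3 : 0 ≤ ∑ ν, c s ν ^ 2 := by positivity
    linarith
  rw [div_le_iff₀ (hk s hs)] at h1
  linarith

theorem sum_l2_le_cost (i : ℕ) (hi : i ≤ T.top) :
    ∑ s ∈ range (i + 1), ∑ ν, c s ν ^ 2 ≤ T.cost y c := by
  unfold Tower.cost
  refine le_trans (sum_le_sum fun s _ => ?_) (sum_le_sum_of_subset_of_nonneg
    (range_subset_range.2 (by omega : i + 1 ≤ T.top + 1)) fun _ _ _ => ?_)
  · have h2 : 0 ≤ ∑ b, y s b ^ 2 := by positivity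
    have h3 : 0 ≤ (∑ ν, |c s ν|) ^ 2 / (T.k s : ℝ) := by positivity
    linarith
  · positivity

theorem acc_l2 (hK : (1 : ℝ) ≤ T.K) (i : ℕ) (hi : i ≤ T.top) :
    ∑ ν, T.acc c i ν ^ 2 ≤ (((i : ℝ) + 1) * T.K ^ i) ^ 2 * T.cost y c := by
  have h1 : ∀ ν, T.acc c i ν ^ 2 ≤
      ((i : ℝ) + 1) * ∑ s ∈ range (i + 1), ((T.K : ℝ) ^ i) ^ 2 * c s ν ^ 2 := by
    intro ν
    unfold Tower.acc
    refine (sq_sum_le_card_mul_sum_sq).trans ?_
    rw [card_range]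
    push_cast
    refine mul_le_mul_of_nonneg_left (sum_le_sum fun s hs => ?_) (by positivity)
    rw [mul_pow]
    refine mul_le_mul_of_nonneg_right ?_ (sq_nonneg _)
    exact pow_le_pow_left₀ (by positivity) (pow_le_pow_right₀ hK (Nat.sub_le _ _)) 2
  refine (sum_le_sum fun ν _ => h1 ν).trans ?_
  rw [← mul_sum, sum_comm]
  simp only [← mul_sum]
  have h2 := sum_l2_le_cost y c i hi
  have h3 : 0 ≤ T.cost y c := cost_nonneg y c
  calc ((i : ℝ) + 1) * (((T.K : ℝ) ^ i) ^ 2 * ∑ s ∈ range (i + 1), ∑ ν, c s ν ^ 2)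
      ≤ ((i : ℝ) + 1) * (((T.K : ℝ) ^ i) ^ 2 * T.cost y c) := by gcongr
    _ ≤ ((i : ℝ) + 1) * (((i : ℝ) + 1) * (((T.K : ℝ) ^ i) ^ 2 * T.cost y c)) := by
        refine mul_le_mul_of_nonneg_left ?_ (by positivity)
        have : 0 ≤ ((T.K : ℝ) ^ i) ^ 2 * T.cost y c := by positivity
        have h4 : (0 : ℝ) ≤ i := Nat.cast_nonneg i
        nlinarith
    _ = _ := by ring

theorem acc_l1 (hK : (1 : ℝ) ≤ T.K) (hk : ∀ s ≤ T.top, (0 : ℝ) < T.k s) (i : ℕ) (hi : i ≤ T.top)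
    (hmono : ∀ s ≤ i, (T.k s : ℝ) ≤ T.k i) (m : ℝ) (hm : T.cost y c ≤ m) :
    ∑ ν, |T.acc c i ν| ≤ ((i : ℝ) + 1) * T.K ^ i * (Real.sqrt (T.k i) * Real.sqrt m) := by
  have h1 : ∀ ν, |T.acc c i ν| ≤ ∑ s ∈ range (i + 1), (T.K : ℝ) ^ i * |c s ν| := by
    intro ν
    unfold Tower.acc
    refine (abs_sum_le_sum_abs _ _).trans (sum_le_sum fun s _ => ?_)
    rw [abs_mul, abs_of_nonneg (by positivity : (0 : ℝ) ≤ (T.K : ℝ) ^ (i - s))]
    exact mul_le_mul_of_nonneg_right (pow_le_pow_right₀ hK (Nat.sub_le _ _)) (abs_nonneg _)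
  refine (sum_le_sum fun ν _ => h1 ν).trans ?_
  rw [sum_comm]
  simp only [← mul_sum]
  have h2 : ∀ s ∈ range (i + 1), ∑ ν, |c s ν| ≤ Real.sqrt (T.k i) * Real.sqrt m := by
    intro s hs
    rw [mem_range] at hs
    rw [← Real.sqrt_mul (Nat.cast_nonneg _)]
    apply Real.le_sqrt_of_sq_le
    refine (l1_le_cost y c hk s (by omega)).trans ?_
    exact mul_le_mul (hmono s (by omega)) hm (cost_nonneg y c) (Nat.cast_nonneg _)
  have h3 := sum_le_sum h2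
  rw [sum_const, card_range, nsmul_eq_mul] at h3
  push_cast at h3
  calc _ ≤ (T.K : ℝ) ^ i * (((i : ℝ) + 1) * (Real.sqrt (T.k i) * Real.sqrt m)) :=
        mul_le_mul_of_nonneg_left h3 (by positivity)
    _ = _ := by ring

end cost

theorem ev_eq1 (y : (s : ℕ) → Fin (T.n s) → ℝ)
    (c : ℕ → Fin (2 ^ T.a) → ℝ) (i : ℕ) (b : Fin (T.n (i + 1))) :
    T.ev y c (i + 1) b = y (i + 1) b + ∑ ν, T.G (i + 1) b ν * c (i + 1) ν +
      T.K * ∑ ν, T.G (i + 1) b ν * T.acc c i ν := by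
  unfold Tower.ev
  simp only [T.acc_succ, mul_add, sum_add_distrib, mul_sum]
  rw [add_assoc]
  congr 2
  exact sum_congr rfl fun ν _ => by ring

/-- the bound for one pairing -/
theorem one_e {ε η : ℝ} (i : ℕ) (hi : i < T.top) (hGE : GE T (i + 1) ε η) (hK : (1 : ℝ) ≤ T.K)
    (hk : ∀ s ≤ T.top, (0 : ℝ) < T.k s) (hmono : ∀ s ≤ i, (T.k s : ℝ) ≤ T.k i)
    (y : (s : ℕ) → Fin (T.n s) → ℝ) (c : ℕ → Fin (2 ^ T.a) → ℝ) (m : ℝ) (hm : T.cost y c ≤ m)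
    (W : Fin (2 ^ T.a) → ℝ) (w0 : ℝ) (hw0 : ∀ ν, |W ν| ≤ w0) :
    ∑ b, T.ev y c (i + 1) b * (∑ ν, T.G (i + 1) b ν * W ν) ≤
      Real.sqrt m * (Real.sqrt (∑ b, (∑ ν, T.G (i + 1) b ν * W ν) ^ 2 +
          (1 + ε) ^ 2 * ∑ ν, W ν ^ 2) +
        η * Real.sqrt (T.k (i + 1)) * (∑ ν, |W ν|) +
        T.K * (((i : ℝ) + 1) * T.K ^ i) * (Real.sqrt (T.k i) * w0 +
          ε * Real.sqrt (∑ ν, W ν ^ 2) + η * Real.sqrt (T.k i) * (∑ ν, |W ν|))) := by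
  have hm0 : 0 ≤ m := (cost_nonneg y c).trans hm
  set C : ℝ := ((i : ℝ) + 1) * T.K ^ i with hC
  have hC0 : 0 ≤ C := by positivity
  set GW : Fin (T.n (i + 1)) → ℝ := fun b => ∑ ν, T.G (i + 1) b ν * W ν with hGW
  set sm := Real.sqrt m with hsm
  have hsm0 : 0 ≤ sm := Real.sqrt_nonneg _
  have hdec : ∑ b, T.ev y c (i + 1) b * GW b =
      ∑ b, y (i + 1) b * GW b + ∑ b, (∑ ν, T.G (i + 1) b ν * c (i + 1) ν) * GW b +
        T.K * ∑ b, (∑ ν, T.G (i + 1) b ν * T.acc c i ν) * GW b := by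
    rw [mul_sum, ← sum_add_distrib, ← sum_add_distrib]
    refine sum_congr rfl fun b _ => ?_
    rw [ev_eq1]
    ring
  have h1 := hGE.inner (c (i + 1)) W
  have h2 := hGE.inner (T.acc c i) W
  have h3 := cs' univ (y (i + 1)) GW
  have h4 := cs' univ (c (i + 1)) W
  have hterm := term_le_cost y c (i + 1) (by omega)
  set sy := Real.sqrt (∑ b, y (i + 1) b ^ 2) with hsy
  set sc := Real.sqrt (∑ ν, c (i + 1) ν ^ 2) with hsc
  set sW := Real.sqrt (∑ ν, W ν ^ 2) with hsW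
  set sG := Real.sqrt (∑ b, GW b ^ 2) with hsG
  set W1 := ∑ ν, |W ν| with hW1
  have hW10 : 0 ≤ W1 := by positivity
  have hsy0 : 0 ≤ sy := Real.sqrt_nonneg _
  have hsc0 : 0 ≤ sc := Real.sqrt_nonneg _
  have hsW0 : 0 ≤ sW := Real.sqrt_nonneg _
  have hsG0 : 0 ≤ sG := Real.sqrt_nonneg _
  have hε0 := hGE.epos
  have hη0 := hGE.nonneg
  have hsm2 : sm ^ 2 = m := Real.sq_sqrt hm0
  -- content of level i+1
  have hc1 : ∑ ν, |c (i + 1) ν| ≤ Real.sqrt (T.k (i + 1)) * sm := by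
    rw [hsm, ← Real.sqrt_mul (Nat.cast_nonneg _)]
    apply Real.le_sqrt_of_sq_le
    exact (l1_le_cost y c hk (i + 1) (by omega)).trans
      (mul_le_mul_of_nonneg_left hm (Nat.cast_nonneg _))
  have hb1 := acc_l1 y c hK hk i (by omega) hmono m hm
  rw [← hC, ← hsm] at hb1
  have hb2 : Real.sqrt (∑ ν, T.acc c i ν ^ 2) ≤ C * sm := by
    rw [Real.sqrt_le_iff]
    refine ⟨by positivity, ?_⟩
    rw [mul_pow, hsm2]
    exact (acc_l2 y c hK i (by omega)).trans (mul_le_mul_of_nonneg_left hm (by positivity))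
  -- main part
  have hmain : sy * sG + (1 + ε) * (sc * sW) ≤
      sm * Real.sqrt (∑ b, GW b ^ 2 + (1 + ε) ^ 2 * ∑ ν, W ν ^ 2) := by
    rw [hsm, ← Real.sqrt_mul hm0]
    apply Real.le_sqrt_of_sq_le
    have e1 : sy ^ 2 + sc ^ 2 ≤ m := by
      rw [Real.sq_sqrt (by positivity), Real.sq_sqrt (by positivity)]
      have : 0 ≤ (∑ ν, |c (i + 1) ν|) ^ 2 / (T.k (i + 1) : ℝ) := by positivity
      linarith
    have e2 : ∑ b, GW b ^ 2 + (1 + ε) ^ 2 * ∑ ν, W ν ^ 2 = sG ^ 2 + ((1 + ε) * sW) ^ 2 := by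
      rw [mul_pow, Real.sq_sqrt (by positivity), Real.sq_sqrt (by positivity)]
    rw [e2]
    have e3 : (sy * sG + (1 + ε) * (sc * sW)) ^ 2 ≤
        (sy ^ 2 + sc ^ 2) * (sG ^ 2 + ((1 + ε) * sW) ^ 2) := by
      have := sq_nonneg (sy * ((1 + ε) * sW) - sc * sG)
      nlinarith
    exact e3.trans (mul_le_mul_of_nonneg_right e1 (by positivity))
  have hA : ∑ b, y (i + 1) b * GW b ≤ sy * sG := (le_abs_self _).trans h3
  have hB : ∑ b, (∑ ν, T.G (i + 1) b ν * c (i + 1) ν) * GW b ≤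
      (1 + ε) * (sc * sW) + η * (Real.sqrt (T.k (i + 1)) * sm * W1) := by
    have e1 := (abs_le.1 h1).2
    have e2 := (abs_le.1 h4).2
    have e3 : η * ((∑ ν, |c (i + 1) ν|) * W1) ≤ η * (Real.sqrt (T.k (i + 1)) * sm * W1) :=
      mul_le_mul_of_nonneg_left (mul_le_mul_of_nonneg_right hc1 hW10) hη0
    linarith
  have hCc : ∑ b, (∑ ν, T.G (i + 1) b ν * T.acc c i ν) * GW b ≤
      C * (Real.sqrt (T.k i) * sm) * w0 + ε * (C * sm * sW) +
        η * (C * (Real.sqrt (T.k i) * sm) * W1) := by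
    have e1 := (abs_le.1 h2).2
    have e2 : ∑ ν, T.acc c i ν * W ν ≤ C * (Real.sqrt (T.k i) * sm) * w0 := by
      have e3 : ∑ ν, T.acc c i ν * W ν ≤ ∑ ν, |T.acc c i ν| * w0 := by
        refine sum_le_sum fun ν _ => ?_
        refine (le_abs_self _).trans ?_
        rw [abs_mul]
        exact mul_le_mul_of_nonneg_left (hw0 ν) (abs_nonneg _)
      refine e3.trans ?_
      rw [← sum_mul]
      have hw00 : 0 ≤ w0 := (abs_nonneg _).trans (hw0 ⟨0, by positivity⟩)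
      exact mul_le_mul_of_nonneg_right hb1 hw00
    have e4 : ε * (Real.sqrt (∑ ν, T.acc c i ν ^ 2) * sW) ≤ ε * (C * sm * sW) :=
      mul_le_mul_of_nonneg_left (mul_le_mul_of_nonneg_right hb2 hsW0) hε0
    have e5 : η * ((∑ ν, |T.acc c i ν|) * W1) ≤ η * (C * (Real.sqrt (T.k i) * sm) * W1) :=
      mul_le_mul_of_nonneg_left (mul_le_mul_of_nonneg_right hb1 hW10) hη0
    linarith
  have hCc' := mul_le_mul_of_nonneg_left hCc (by linarith : (0 : ℝ) ≤ T.K)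
  rw [hdec]
  linarith

end Run7.h24.NEG
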