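import Pool.Agent.Run7.h24.NEG.Gram
import Pool.Agent.Run7.h35.NEG.Iface2

/-! The piece PAIR. -/

set_option autoImplicit false

namespace Run7.h24.NEG

open Run7.h35.NEG Finset Module

variable {T : Tower}

theorem ev_eq {J : ℕ} (y : (s : ℕ) → Fin (T.n s) → Fin J → ℝ)
    (c : ℕ → Fin (2 ^ T.a) → Fin J → ℝ) (i : ℕ) (b : Fin (T.n (i + 1))) (j : Fin J) :
    T.ev (fun s b => y s b j) (fun s ν => c s ν j) (i + 1) b =
      y (i + 1) b j + gm T (i + 1) (c (i + 1)) b j + T.K * gm T (i + 1) (T.accJ c i) b j := by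
  unfold Tower.ev gm Tower.accJ
  simp only [T.acc_succ, mul_add, sum_add_distrib, mul_sum]
  rw [add_assoc]
  congr 2
  exact sum_congr rfl fun ν _ => by ring

theorem l1_le {N J q : ℕ} {a : ℕ} {H : ℝ} (u : Fin N → Fin J → ℝ)
    (hu : ∀ t, SG a q H (fun ν => u ν t)) : l1 u ≤ q * hs u := by
  unfold l1 hs
  rw [sum_comm (s := (univ : Finset (Fin N))), mul_sum]
  refine sum_le_sum fun t _ => ?_
  have h1 : ∑ ν, |u ν t| = ∑ ν ∈ univ.filter (fun ν => u ν t ≠ 0), |u ν t| := by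
    refine (sum_subset (filter_subset _ _) fun ν _ hν => ?_).symm
    simp only [mem_filter, mem_univ, true_and, not_not] at hν
    rw [hν, abs_zero]
  rw [h1]
  refine (sq_sum_le_card_mul_sum_sq).trans ?_
  simp only [sq_abs]
  refine mul_le_mul (by exact_mod_cast (hu t).2.1)
    (sum_le_sum_of_subset_of_nonneg (filter_subset _ _) fun _ _ _ => sq_nonneg _)
    (by positivity) (by positivity)

theorem hs_le {N J q : ℕ} {a : ℕ} {H : ℝ} (u : Fin N → Fin J → ℝ)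
    (hu : ∀ t, SG a q H (fun ν => u ν t)) : hs u ≤ H ^ 2 * J := by
  unfold hs
  rw [sum_comm]
  refine (sum_le_sum fun t _ => (hu t).2.2).trans ?_
  rw [sum_const, card_univ, Fintype.card_fin, nsmul_eq_mul, mul_comm]

/-- facts on the sizes -/
theorem k_facts {H ε C₀ : ℝ} {g Γ : ℕ} (h : T.OK H ε C₀ g Γ) (hg : 4 ≤ g) (i : ℕ) (hi : i < T.top) :
    (1 : ℝ) ≤ T.k i ∧ (T.k i : ℝ) ^ 120 ≤ T.k (i + 1) ∧ (Γ : ℝ) ≤ T.k (i + 1) ∧
      (T.k i : ℝ) ≤ T.k (i + 1) ∧ (Γ : ℝ) ≤ T.k i := by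
  have h1 : 1 ≤ T.k i := h.one_le_a.trans (h.k_ge i)
  have h2 : T.k i ^ 120 ≤ T.k (i + 1) := by
    refine le_trans ?_ (h.gap i hi)
    rw [h.n_eq i hi, ← pow_mul]
    exact Nat.pow_le_pow_right h1 (by omega)
  have h3 : Γ ≤ T.k (i + 1) := h.base.trans (h.k_ge _)
  have h4 : T.k i ≤ T.k (i + 1) := le_trans (Nat.le_self_pow (by norm_num) _) h2
  refine ⟨by exact_mod_cast h1, by exact_mod_cast h2, by exact_mod_cast h3, by exact_mod_cast h4,
    by exact_mod_cast h.base.trans (h.k_ge _)⟩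

theorem PAIR.main : S_PAIR := by
  intro K top H B δ hH hB hδ
  have hKBH : 0 < ((K : ℝ) + 1) * B * H := by positivity
  have hBB : B ≤ B ^ 2 := by nlinarith
  refine ⟨min (1 / 10) (δ / (4 * (((K : ℝ) + 1) * B * H))), by positivity,
    ⌈100 + 32 * (((K : ℝ) + 1) * B * H) / δ⌉₊, ?_⟩
  intro H₂ ε C₀ g T hg hε hε₀ hε1 hK htop hOK i hi r hr4 u y c A hu hyc hAB hc1 hb hb1
  subst hK
  have hi' : i < T.top := by omega
  obtain ⟨hk1, _, hκΓ, hkκ, _⟩ := k_facts hOK hg i hi'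
  obtain ⟨η, hGE, hη⟩ := ge_of_ok hε.le hOK (i + 1) (by omega)
  set κ : ℝ := (T.k (i + 1) : ℝ) with hκ
  set k : ℝ := (T.k i : ℝ) with hk
  have hΓ : 100 + 32 * (((T.K : ℝ) + 1) * B * H) / δ ≤ κ := (Nat.le_ceil _).trans hκΓ
  have hq : 0 ≤ 32 * (((T.K : ℝ) + 1) * B * H) / δ := by positivity
  have hκ100 : 100 ≤ κ := by linarith
  have hκ1 : 1 ≤ κ := by linarith
  have hκδ : 8 / κ * (((T.K : ℝ) + 1) * B * H) ≤ δ / 4 := by
    have h1 : 32 * (((T.K : ℝ) + 1) * B * H) / δ ≤ κ := by linarith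
    rw [div_le_iff₀ hδ] at h1
    rw [div_mul_eq_mul_div, div_le_iff₀ (by linarith)]
    linarith
  have hεδ : ε * (((T.K : ℝ) + 1) * B * H) ≤ δ / 4 := by
    have h1 := hε₀.trans (min_le_right _ _)
    rw [le_div_iff₀ (by positivity)] at h1
    linarith
  have hε10 : ε ≤ 1 / 10 := hε₀.trans (min_le_left _ _)
  have hηκ : ∀ p : ℕ, p ≤ 13 → η * κ ^ p ≤ 8 / κ := by
    intro p hp
    rw [le_div_iff₀ (by linarith), mul_assoc, ← pow_succ]
    refine le_trans (mul_le_mul_of_nonneg_left (pow_le_pow_right₀ hκ1 (by omega)) hGE.nonneg) hη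
  have hr0 : (0 : ℝ) ≤ r := Nat.cast_nonneg _
  have hBHr : 0 ≤ B * H * r := by positivity
  -- estimates for u
  have hu1 : l1 u ≤ k ^ 3 * hs u := by
    have := l1_le u hu
    push_cast at this
    exact this
  have hu2 : hs u ≤ H ^ 2 * r := hs_le u hu
  have hu0 := hs_nonneg u
  have hu1' : l1 u ≤ k ^ 3 * (H ^ 2 * r) :=
    hu1.trans (mul_le_mul_of_nonneg_left hu2 (by positivity))
  have hk3 : k ^ 3 ≤ κ ^ 3 := pow_le_pow_left₀ (by linarith) hkκ 3
  have hk4 : k ^ 4 ≤ κ ^ 4 := pow_le_pow_left₀ (by linarith) hkκ 4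
  -- E1
  have hGu : hs (gm T (i + 1) u) ≤ 1.21 * hs u := by
    have h1 := hGE.hs_le u
    have h2 : η * l1 u ≤ 8 / κ * hs u := by
      calc η * l1 u ≤ η * (κ ^ 3 * hs u) :=
            mul_le_mul_of_nonneg_left (hu1.trans (mul_le_mul_of_nonneg_right hk3 hu0)) hGE.nonneg
        _ = (η * κ ^ 3) * hs u := by ring
        _ ≤ 8 / κ * hs u := mul_le_mul_of_nonneg_right (hηκ 3 (by norm_num)) hu0
    have h3 : 8 / κ ≤ 0.08 := by
      rw [div_le_iff₀ (by linarith)]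
      linarith
    have h4 : 8 / κ * hs u ≤ 0.08 * hs u := mul_le_mul_of_nonneg_right h3 hu0
    have h5 : ε * hs u ≤ 1 / 10 * hs u := mul_le_mul_of_nonneg_right hε10 hu0
    linarith
  have hE1 : |∑ j, ∑ b, y (i + 1) b j * gm T (i + 1) u b j| ≤
      1.1 * Real.sqrt (hs (y (i + 1))) * Real.sqrt (hs u) := by
    refine (cs_hs _ _).trans ?_
    have h1 : Real.sqrt (hs (gm T (i + 1) u)) ≤ 1.1 * Real.sqrt (hs u) := by
      rw [Real.sqrt_le_iff]
      refine ⟨by positivity, ?_⟩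
      rw [mul_pow, Real.sq_sqrt hu0]
      linarith
    calc _ ≤ Real.sqrt (hs (y (i + 1))) * (1.1 * Real.sqrt (hs u)) :=
          mul_le_mul_of_nonneg_left h1 (Real.sqrt_nonneg _)
      _ = _ := by ring
  -- E2
  have hE2 := hGE.mat (c (i + 1)) u
  have hE2a : Real.sqrt (l1 (c (i + 1))) * Real.sqrt (l1 u) ≤ κ ^ 2 * (B * H * r) := by
    apply sqrt_mul_sqrt_le (l1_nonneg _) (by positivity)
    calc l1 (c (i + 1)) * l1 u ≤ (κ * (B * r)) * (κ ^ 3 * (H ^ 2 * r)) :=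
          mul_le_mul hc1 (hu1'.trans (mul_le_mul_of_nonneg_right hk3 (by positivity)))
            (l1_nonneg _) (by positivity)
      _ = κ ^ 4 * H ^ 2 * r ^ 2 * B := by ring
      _ ≤ κ ^ 4 * H ^ 2 * r ^ 2 * B ^ 2 :=
          mul_le_mul_of_nonneg_left hBB (by positivity)
      _ = (κ ^ 2 * (B * H * r)) ^ 2 := by ring
  have hE2b : |∑ j, ∑ ν, c (i + 1) ν j * u ν j| ≤
      Real.sqrt (hs (c (i + 1))) * Real.sqrt (hs u) := cs_hs _ _
  have hE2c : η * (Real.sqrt (l1 (c (i + 1))) * Real.sqrt (l1 u)) ≤ 8 / κ * (B * H * r) := by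
    calc _ ≤ η * (κ ^ 2 * (B * H * r)) := mul_le_mul_of_nonneg_left hE2a hGE.nonneg
      _ = η * κ ^ 2 * (B * H * r) := by ring
      _ ≤ _ := mul_le_mul_of_nonneg_right (hηκ 2 (by norm_num)) hBHr
  -- E3
  have hE3 := hGE.mat (T.accJ c i) u
  have hE3a : Real.sqrt (l1 (T.accJ c i)) * Real.sqrt (l1 u) ≤ κ ^ 4 * (B * H * r) := by
    apply sqrt_mul_sqrt_le (l1_nonneg _) (by positivity)
    calc l1 (T.accJ c i) * l1 u ≤ (κ ^ 4 * (B * r)) * (κ ^ 3 * (H ^ 2 * r)) :=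
          mul_le_mul (le_trans hb1 (mul_le_mul_of_nonneg_right hk4 (by positivity)))
            (hu1'.trans (mul_le_mul_of_nonneg_right hk3 (by positivity)))
            (l1_nonneg _) (by positivity)
      _ = (κ ^ 7 * B) * (H ^ 2 * r ^ 2) := by ring
      _ ≤ (κ ^ 8 * B ^ 2) * (H ^ 2 * r ^ 2) := by
          refine mul_le_mul_of_nonneg_right ?_ (by positivity)
          exact mul_le_mul (pow_le_pow_right₀ hκ1 (by norm_num)) hBB (by linarith)
            (by positivity)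
      _ = (κ ^ 4 * (B * H * r)) ^ 2 := by ring
  have hE3b : Real.sqrt (hs (T.accJ c i)) * Real.sqrt (hs u) ≤ B * H * r := by
    apply sqrt_mul_sqrt_le (hs_nonneg _) hBHr
    calc hs (T.accJ c i) * hs u ≤ (B * r) * (H ^ 2 * r) :=
          mul_le_mul hb hu2 hu0 (by positivity)
      _ = B * (H ^ 2 * r ^ 2) := by ring
      _ ≤ B ^ 2 * (H ^ 2 * r ^ 2) := mul_le_mul_of_nonneg_right hBB (by positivity)
      _ = _ := by ring
  have hE3c : η * (Real.sqrt (l1 (T.accJ c i)) * Real.sqrt (l1 u)) ≤ 8 / κ * (B * H * r) := by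
    calc _ ≤ η * (κ ^ 4 * (B * H * r)) := mul_le_mul_of_nonneg_left hE3a hGE.nonneg
      _ = η * κ ^ 4 * (B * H * r) := by ring
      _ ≤ _ := mul_le_mul_of_nonneg_right (hηκ 4 (by norm_num)) hBHr
  have hE3d : ε * (Real.sqrt (hs (T.accJ c i)) * Real.sqrt (hs u)) ≤ ε * (B * H * r) :=
    mul_le_mul_of_nonneg_left hE3b hε.le
  -- the decomposition
  have hdec : ∑ j, ∑ b, T.ev (fun s b => y s b j) (fun s ν => c s ν j) (i + 1) b *
      T.GM (i + 1) u b j = ∑ j, ∑ b, y (i + 1) b j * gm T (i + 1) u b j +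
        ∑ j, ∑ b, gm T (i + 1) (c (i + 1)) b j * gm T (i + 1) u b j +
        T.K * ∑ j, ∑ b, gm T (i + 1) (T.accJ c i) b j * gm T (i + 1) u b j := by
    simp only [mul_sum, ← sum_add_distrib]
    refine sum_congr rfl fun j _ => sum_congr rfl fun b _ => ?_
    rw [ev_eq]
    change _ * gm T (i + 1) u b j = _
    ring
  rw [hdec]
  set Y := ∑ j, ∑ b, y (i + 1) b j * gm T (i + 1) u b j
  set P := ∑ j, ∑ b, gm T (i + 1) (c (i + 1)) b j * gm T (i + 1) u b j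
  set P' := ∑ j, ∑ ν, c (i + 1) ν j * u ν j
  set Q := ∑ j, ∑ b, gm T (i + 1) (T.accJ c i) b j * gm T (i + 1) u b j
  set Q' := ∑ j, ∑ ν, T.accJ c i ν j * u ν j
  set sy := Real.sqrt (hs (y (i + 1)))
  set sc := Real.sqrt (hs (c (i + 1)))
  set su := Real.sqrt (hs u)
  have hsu : 0 ≤ su := Real.sqrt_nonneg _
  have hsy : 0 ≤ sy := Real.sqrt_nonneg _
  have hsc : 0 ≤ sc := Real.sqrt_nonneg _
  -- the main term
  have hmain : 1.1 * (sy + sc) ≤ 2 * Real.sqrt (A * r) := by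
    have hAr : 0 ≤ A * r := le_trans (add_nonneg (hs_nonneg _) (hs_nonneg _)) hyc
    have h1 : sy ^ 2 + sc ^ 2 ≤ A * r := by
      rw [Real.sq_sqrt (hs_nonneg _), Real.sq_sqrt (hs_nonneg _)]
      exact hyc
    have h2 : (1.1 * (sy + sc)) ^ 2 ≤ (2 * Real.sqrt (A * r)) ^ 2 := by
      rw [mul_pow 2, Real.sq_sqrt hAr]
      have h3 := sq_nonneg (sy - sc)
      linarith
    exact le_of_sq_le_sq h2 (by positivity)
  have hKr : 0 ≤ (T.K : ℝ) := Nat.cast_nonneg _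
  have hQ : |T.K * Q - T.K * Q'| ≤ T.K * (ε * (B * H * r) + 8 / κ * (B * H * r)) := by
    rw [← mul_sub, abs_mul, abs_of_nonneg hKr]
    exact mul_le_mul_of_nonneg_left (hE3.trans (add_le_add hE3d hE3c)) hKr
  have hP : |P| ≤ 1.1 * (sc * su) + 8 / κ * (B * H * r) := by
    have h1 : |P| ≤ |P - P'| + |P'| := by
      have := abs_add_le (P - P') P'
      simpa using this
    have h3 : 0 ≤ sc * su := by positivity
    have h4 : ε * (sc * su) ≤ 1 / 10 * (sc * su) := mul_le_mul_of_nonneg_right hε10 h3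
    linarith
  have hfin : |Y + P + T.K * Q - T.K * Q'| ≤ |Y| + |P| + |T.K * Q - T.K * Q'| := by
    have h1 := abs_add_le (Y + P) (T.K * Q - T.K * Q')
    have h2 := abs_add_le Y P
    have h3 : Y + P + T.K * Q - T.K * Q' = Y + P + (T.K * Q - T.K * Q') := by ring
    rw [h3]
    linarith
  refine hfin.trans ?_
  have h5 : 1.1 * (sy + sc) * su ≤ 2 * Real.sqrt (A * r) * su :=
    mul_le_mul_of_nonneg_right hmain hsu
  have h6 : 8 / κ * (B * H * r) + T.K * (ε * (B * H * r) + 8 / κ * (B * H * r)) ≤ δ * r := by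
    have e1 : 8 / κ * (B * H * r) + T.K * (8 / κ * (B * H * r)) =
        8 / κ * (((T.K : ℝ) + 1) * B * H) * r := by ring
    have e2 : T.K * (ε * (B * H * r)) ≤ ε * (((T.K : ℝ) + 1) * B * H) * r := by
      have : 0 ≤ ε * (B * H * r) := by positivity
      linarith
    have e3 : 8 / κ * (((T.K : ℝ) + 1) * B * H) * r ≤ δ / 4 * r :=
      mul_le_mul_of_nonneg_right hκδ hr0
    have e4 : ε * (((T.K : ℝ) + 1) * B * H) * r ≤ δ / 4 * r :=
      mul_le_mul_of_nonneg_right hεδ hr0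
    have e5 : 0 ≤ δ * r := by positivity
    linarith
  linarith

end Run7.h24.NEG
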